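import Mathlib

/-!
# Cyclic cubics and completely multiplicative functions: algebraic identities

`F v j x = x^3 - j x^2 - v (j+3v) x - v^3`.  If `θ` is a root then so is `-v(θ+v)/θ`... the roots are
permuted by a Möbius map of order three.  We record the product identities between values of `F`.
-/

set_option autoImplicit false

namespace Pool.H12.Cubic

/-- values of the cubic `X^3 - j X^2 - v (j+3v) X - v^3`. -/
def F (v j x : ℤ) : ℤ := x ^ 3 - j * x ^ 2 - v * (j + 3 * v) * x - v ^ 3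

/-- A completely multiplicative function with values `±1` (on nonzero naturals). -/
structure IsCM (g : ℕ → ℤ) : Prop where
  mul : ∀ m n : ℕ, m ≠ 0 → n ≠ 0 → g (m * n) = g m * g n
  sign : ∀ n : ℕ, n ≠ 0 → g n = 1 ∨ g n = -1

variable {g : ℕ → ℤ}

lemma IsCM.one (hg : IsCM g) : g 1 = 1 := by
  have h := hg.mul 1 1 one_ne_zero one_ne_zero
  rcases hg.sign 1 one_ne_zero with h1 | h1
  · exact h1
  · rw [mul_one, h1] at h; norm_num at h

lemma IsCM.sq (hg : IsCM g) {a : ℤ} (ha : a ≠ 0) : g a.natAbs * g a.natAbs = 1 := by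
  rcases hg.sign a.natAbs (Int.natAbs_ne_zero.mpr ha) with h | h <;> rw [h] <;> norm_num

lemma IsCM.gmul (hg : IsCM g) {a b : ℤ} (ha : a ≠ 0) (hb : b ≠ 0) :
    g (a * b).natAbs = g a.natAbs * g b.natAbs := by
  rw [Int.natAbs_mul]
  exact hg.mul _ _ (Int.natAbs_ne_zero.mpr ha) (Int.natAbs_ne_zero.mpr hb)

lemma IsCM.gcube (hg : IsCM g) {a : ℤ} (ha : a ≠ 0) :
    g (a ^ 3).natAbs = g a.natAbs := by
  have : a ^ 3 = a * (a * a) := by ring
  rw [this, hg.gmul ha (mul_ne_zero ha ha), hg.gmul ha ha, hg.sq ha, mul_one]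

/-- If `v^3 * F(A) = ∓ F(x) F(y)` then the signs multiply. -/
lemma IsCM.three (hg : IsCM g) {v a x y : ℤ} (hv : v ≠ 0) (ha : a ≠ 0) (hx : x ≠ 0) (hy : y ≠ 0)
    (h : v ^ 3 * a = -(x * y)) : g v.natAbs * g a.natAbs = g x.natAbs * g y.natAbs := by
  have h1 : g (v ^ 3 * a).natAbs = g (-(x * y)).natAbs := by rw [h]
  rw [Int.natAbs_neg, hg.gmul (pow_ne_zero 3 hv) ha, hg.gcube hv, hg.gmul hx hy] at h1
  exact h1

lemma IsCM.three' (hg : IsCM g) {v a x y : ℤ} (hv : v ≠ 0) (ha : a ≠ 0) (hx : x ≠ 0) (hy : y ≠ 0)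
    (h : v ^ 3 * a = x * y) : g v.natAbs * g a.natAbs = g x.natAbs * g y.natAbs := by
  have h1 : g (v ^ 3 * a).natAbs = g (x * y).natAbs := by rw [h]
  rw [hg.gmul (pow_ne_zero 3 hv) ha, hg.gcube hv, hg.gmul hx hy] at h1
  exact h1

lemma IsCM.four (hg : IsCM g) {l a b c d : ℤ} (hl : l ≠ 0) (ha : a ≠ 0) (hb : b ≠ 0) (hc : c ≠ 0)
    (hd : d ≠ 0) (h : l ^ 3 * (a * b) = c * d) :
    g l.natAbs * (g a.natAbs * g b.natAbs) = g c.natAbs * g d.natAbs := by
  have h1 : g (l ^ 3 * (a * b)).natAbs = g (c * d).natAbs := by rw [h]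
  rw [hg.gmul (pow_ne_zero 3 hl) (mul_ne_zero ha hb), hg.gcube hl, hg.gmul hc hd,
    hg.gmul ha hb] at h1
  exact h1

/-! ### Identities -/

lemma id_A0 (v j y : ℤ) :
    v ^ 3 * F v j (v * y ^ 2 - (j + v) * y - 2 * v) = -(F v j (v * y) * F v j (j + v - v * y)) := by
  unfold F; ring

lemma id_A1 (v j y : ℤ) :
    v ^ 3 * F v j ((j + v * y) * (y - 1) - 2 * v) = -(F v j (j + v * y) * F v j (v - v * y)) := by
  unfold F; ring

lemma id_B0 (v j y : ℤ) :
    v ^ 3 * F v j (-v * y ^ 2 + j * y + j + 2 * v) = F v j (v * y) * F v j (j - v * y) := by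
  unfold F; ring

/-- `F(x) F(y)` in terms of the product and the sum. -/
def Phi (v j m s : ℤ) : ℤ :=
  m ^ 3 - j * m ^ 2 * s + (-(v * (j + 3 * v))) * m * (s ^ 2 - 2 * m) - v ^ 3 * (s ^ 3 - 3 * m * s)
    + j ^ 2 * m ^ 2 - j * (-(v * (j + 3 * v))) * m * s + j * v ^ 3 * (s ^ 2 - 2 * m)
    + (v * (j + 3 * v)) ^ 2 * m - (-(v * (j + 3 * v))) * v ^ 3 * s + v ^ 6

lemma prod_formula (v j x y : ℤ) : F v j x * F v j y = Phi v j (x * y) (x + y) := by
  unfold F Phi; ring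

/-- The four term relation. -/
lemma four_term (l r j x1 x2 x3 x4 : ℤ) (h12 : x1 + x2 = j + l * r + r)
    (h34 : x3 + x4 = j - l * (l * r))
    (h : x3 * x4 = l * (x1 * x2) + 2 * (l - 1) * (l * r) ^ 2 - j * (l * r)) :
    l ^ 3 * (F (l * r) j x1 * F (l * r) j x2) = F (l * r) j x3 * F (l * r) j x4 := by
  rw [prod_formula, prod_formula, h12, h34, h]
  unfold Phi; ring

/-- Size bound: outside a bounded range `F` does not vanish. -/
def K (v j : ℤ) : ℤ := |j| + |v * (j + 3 * v)| + |v ^ 3|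

lemma K_nonneg (v j : ℤ) : 0 ≤ K v j := by unfold K; positivity

lemma F_ne_zero {v j x : ℤ} (hx : K v j < |x|) : F v j x ≠ 0 := by
  intro h
  have hK := K_nonneg v j
  have h1 : 1 ≤ |x| := by omega
  have h2 : x ^ 3 = j * x ^ 2 + v * (j + 3 * v) * x + v ^ 3 := by
    unfold F at h; linarith
  have h3 : |x| ^ 3 ≤ |j| * |x| ^ 2 + |v * (j + 3 * v)| * |x| + |v ^ 3| := by
    calc |x| ^ 3 = |x ^ 3| := by rw [abs_pow]
      _ = |j * x ^ 2 + v * (j + 3 * v) * x + v ^ 3| := by rw [h2]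
      _ ≤ |j * x ^ 2 + v * (j + 3 * v) * x| + |v ^ 3| := abs_add_le _ _
      _ ≤ |j * x ^ 2| + |v * (j + 3 * v) * x| + |v ^ 3| := by
          have := abs_add_le (j * x ^ 2) (v * (j + 3 * v) * x); linarith
      _ = |j| * |x| ^ 2 + |v * (j + 3 * v)| * |x| + |v ^ 3| := by
          rw [abs_mul j, abs_mul (v * (j + 3 * v)), abs_pow x]
  have h4 : |j| * |x| ^ 2 + |v * (j + 3 * v)| * |x| + |v ^ 3| ≤ K v j * |x| ^ 2 := by
    have a1 : |x| ≤ |x| ^ 2 := by nlinarith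
    have a2 : 1 ≤ |x| ^ 2 := by nlinarith
    have b1 : |v * (j + 3 * v)| * |x| ≤ |v * (j + 3 * v)| * |x| ^ 2 :=
      mul_le_mul_of_nonneg_left a1 (abs_nonneg _)
    have b2 : |v ^ 3| * 1 ≤ |v ^ 3| * |x| ^ 2 := mul_le_mul_of_nonneg_left a2 (abs_nonneg _)
    unfold K
    nlinarith
  have h5 : K v j * |x| ^ 2 < |x| * |x| ^ 2 := by
    have : 0 < |x| ^ 2 := by positivity
    exact mul_lt_mul_of_pos_right hx this
  have : |x| * |x| ^ 2 = |x| ^ 3 := by ring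
  linarith

end Pool.H12.Cubic
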