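import Pool.Agent.Lib_helper12.Cubic.Defs
import Pool.Agent.Lib_helper12.Cubic.Basic

/-!
# Every cyclic cubic field is generated by a root of one of the cubics, with even `t`
-/

set_option autoImplicit false

open Polynomial

namespace Pool.H12.Cubic

/-- an element of order three with `σρ = -1/(1+ρ)` -/
lemma exists_rho (K : Type*) [Field K] [NumberField K] [IsGalois ℚ K]
    (h3 : Module.finrank ℚ K = 3) :
    ∃ (a : ℚ) (ρ ρ' ρ'' : K), (∀ q : ℚ, (q : K) ≠ ρ) ∧ ρ ≠ ρ' ∧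
      ρ + ρ' + ρ'' = a ∧ ρ * ρ' + ρ * ρ'' + ρ' * ρ'' = -((a : K) + 3) ∧ ρ * ρ' * ρ'' = 1 ∧
      (∀ q : ℚ, (q : K) ≠ ρ') ∧ (∀ q : ℚ, (q : K) ≠ ρ'') := by
  have hcard : Nat.card (K ≃ₐ[ℚ] K) = 3 := by rw [IsGalois.card_aut_eq_finrank, h3]
  have : Fact (Nat.Prime 3) := ⟨Nat.prime_three⟩
  have : Nontrivial (K ≃ₐ[ℚ] K) := by
    rw [← Finite.one_lt_card_iff_nontrivial, hcard]; norm_num
  obtain ⟨σ, hσ⟩ := exists_ne (1 : K ≃ₐ[ℚ] K)
  have hσ3 : σ ^ 3 = 1 := by rw [← hcard]; exact pow_card_eq_one'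
  have hs3 : ∀ x, σ (σ (σ x)) = x := by
    intro x
    have := congrArg (fun τ : K ≃ₐ[ℚ] K => τ x) hσ3
    simpa [pow_succ] using this
  obtain ⟨α, hα⟩ : ∃ α, σ α ≠ α := by
    by_contra hcon
    push Not at hcon
    exact hσ (AlgEquiv.ext (fun x => by simpa using hcon x))
  have h12 : σ α - σ (σ α) ≠ 0 := by
    intro h
    have : σ (α - σ α) = 0 := by rw [map_sub]; exact h
    rw [map_eq_zero] at this
    exact hα (sub_eq_zero.mp this).symm
  have h20 : σ (σ α) - α ≠ 0 := by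
    intro h
    have h' : σ (σ α) = α := sub_eq_zero.mp h
    have : σ (σ (σ α)) = σ α := by rw [h']
    rw [hs3] at this
    exact hα this.symm
  have h01 : α - σ α ≠ 0 := fun h => hα (sub_eq_zero.mp h).symm
  -- fixed elements are rational
  have hfix : ∀ x : K, σ x = x → ∃ q : ℚ, (q : K) = x := by
    intro x hx
    have hmem : x ∈ (⊥ : IntermediateField ℚ K) := by
      rw [IsGalois.mem_bot_iff_fixed]
      intro τ
      have hτ : τ ∈ Subgroup.zpowers σ := mem_zpowers_of_prime_card hcard hσ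
      obtain ⟨k, hk⟩ := Subgroup.mem_zpowers_iff.mp hτ
      have hstab : σ ∈ MulAction.stabilizer (K ≃ₐ[ℚ] K) x := by
        rw [MulAction.mem_stabilizer_iff]; exact hx
      have := (MulAction.stabilizer (K ≃ₐ[ℚ] K) x).zpow_mem hstab k
      rw [hk, MulAction.mem_stabilizer_iff] at this
      exact this
    rw [IntermediateField.mem_bot] at hmem
    obtain ⟨q, hq⟩ := hmem
    exact ⟨q, by rw [← hq]; simp⟩
  set ρ : K := (α - σ α) / (σ α - σ (σ α)) with hρ
  have e1 : σ ρ = (σ α - σ (σ α)) / (σ (σ α) - α) := by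
    rw [hρ, map_div₀, map_sub, map_sub, hs3]
  have e2 : σ (σ ρ) = (σ (σ α) - α) / (α - σ α) := by
    rw [e1, map_div₀, map_sub, map_sub, hs3]
  obtain ⟨a, ha⟩ := hfix (ρ + σ ρ + σ (σ ρ)) (by rw [map_add, map_add, hs3]; ring)
  have hprod : ρ * σ ρ * σ (σ ρ) = 1 := by
    rw [e2, e1, hρ]; field_simp
  have hsec : ρ * σ ρ + ρ * σ (σ ρ) + σ ρ * σ (σ ρ) = -((a : K) + 3) := by
    rw [ha, e2, e1, hρ]
    field_simp
    ring
  have hmoeb : (1 + ρ) * σ ρ = -1 := by
    rw [e1, hρ]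
    field_simp
    ring
  have hne : ρ ≠ σ ρ := by
    intro h
    obtain ⟨q, hq⟩ := hfix ρ h.symm
    rw [← h, ← hq] at hmoeb
    have h1 : (1 + q) * q = -1 := by exact_mod_cast hmoeb
    nlinarith [sq_nonneg (2 * q + 1)]
  refine ⟨a, ρ, σ ρ, σ (σ ρ), ?_, hne, ha.symm, hsec, hprod, ?_, ?_⟩
  · intro q hq
    apply hne
    rw [← hq]; simp
  · intro q hq
    apply hne
    have : σ (σ ρ) = σ ρ := by rw [← hq]; simp
    exact (σ.injective this).symm
  · intro q hq
    apply hne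
    have h : σ (σ (σ ρ)) = σ (σ ρ) := by rw [← hq]; simp
    exact (σ.injective (σ.injective h)).symm

/-- **Every cyclic cubic field** contains a root of `X^3 - A X^2 - (A t + 3 t^2) X - t^3` for some
`A` and some even `t ≥ 1` such that this cubic has no integer root. -/
lemma exists_cubic_field (K : Type*) [Field K] [NumberField K] [IsGalois ℚ K]
    (h3 : Module.finrank ℚ K = 3) :
    ∃ t A : ℤ, 1 ≤ t ∧ Even t ∧ (∀ n, F t A n ≠ 0) ∧ ∃ θ : K, aeval θ (cub t A) = 0 := by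
  obtain ⟨a, ρ, ρ', ρ'', r1, -, s1, s2, s3, r2, r3⟩ := exists_rho K h3
  have hden : (a.den : ℚ) ≠ 0 := by exact_mod_cast a.den_ne_zero
  have hden' : (a.den : K) ≠ 0 := by exact_mod_cast a.den_ne_zero
  have hanum : (a : K) * a.den = a.num := by
    have h : a * a.den = a.num := Rat.mul_den_eq_num a
    have := congrArg (fun q : ℚ => (q : K)) h
    push_cast at this
    exact this
  have hposden : 0 < (a.den : ℤ) := by exact_mod_cast a.den_pos
  have key : ∀ x : K, x ^ 3 - a * x ^ 2 - (a + 3) * x - 1 = (x - ρ) * (x - ρ') * (x - ρ'') := by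
    intro x
    linear_combination (-x ^ 2) * (-s1) + (-x) * s2 + (-1) * (-s3)
  refine ⟨2 * a.den, 2 * a.num, by omega, even_two_mul _, ?_, (2 * a.den : K) * ρ, ?_⟩
  · intro n hn
    have hx := key ((n : K) / (2 * a.den))
    have h2 : (2 * (a.den : K)) ≠ 0 := mul_ne_zero two_ne_zero hden'
    have hz : ((n : K) / (2 * a.den)) ^ 3 - a * ((n : K) / (2 * a.den)) ^ 2 -
        (a + 3) * ((n : K) / (2 * a.den)) - 1 = 0 := by
      have hn' : ((F (2 * a.den) (2 * a.num) n : ℤ) : K) = 0 := by rw [hn]; simp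
      unfold F at hn'
      push_cast at hn'
      rw [← hanum] at hn'
      have : (2 * (a.den : K)) ^ 3 * (((n : K) / (2 * a.den)) ^ 3 - a * ((n : K) / (2 * a.den)) ^ 2 -
        (a + 3) * ((n : K) / (2 * a.den)) - 1) = 0 := by
        rw [← hn']
        field_simp
      exact (mul_eq_zero.mp this).resolve_left (pow_ne_zero 3 h2)
    rw [hz] at hx
    have hq : ((n / (2 * a.den) : ℚ) : K) = (n : K) / (2 * a.den) := by push_cast; rfl
    rcases mul_eq_zero.mp hx.symm with h | h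
    · rcases mul_eq_zero.mp h with h | h
      · exact r1 (n / (2 * a.den)) (by rw [hq]; exact sub_eq_zero.mp h)
      · exact r2 (n / (2 * a.den)) (by rw [hq]; exact sub_eq_zero.mp h)
    · exact r3 (n / (2 * a.den)) (by rw [hq]; exact sub_eq_zero.mp h)
  · have hx := key ρ
    have hx0 : ρ ^ 3 - a * ρ ^ 2 - (a + 3) * ρ - 1 = 0 := by rw [hx]; ring
    unfold cub
    simp only [map_sub, map_mul, map_pow, aeval_X, aeval_C]
    simp only [algebraMap_int_eq, eq_intCast]
    push_cast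
    rw [← hanum]
    linear_combination ((2 * (a.den : K)) ^ 3) * hx0

end Pool.H12.Cubic
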