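import Mathlib

/-!
# Liouville function on the integers and the cubic family
-/

set_option autoImplicit false

open Polynomial

namespace Pool.H12.Cubic

/-- The Liouville function extended to the integers: `lam 0 = 0`, `lam m = (-1)^Ω(|m|)`. -/
def lam (m : ℤ) : ℤ := if m = 0 then 0 else (-1) ^ ArithmeticFunction.cardFactors m.natAbs

/-- The cubic `X^3 - j X^2 - v (j+3v) X - v^3`. -/
noncomputable def cub (v j : ℤ) : ℤ[X] :=
  X ^ 3 - C j * X ^ 2 - C (v * (j + 3 * v)) * X - C (v ^ 3)

end Pool.H12.Cubic
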