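import Pool.Agent.Lib_helper12.Cubic.One

/-!
# Further one-sided results: odd `v`, reflection, and unconditional classes for `v = 1`
-/

set_option autoImplicit false

namespace Pool.H12.Cubic

variable {g : ℕ → ℤ}

/-- Reflection `x ↦ -v - x` swaps `j` and `-j-3v`. -/
lemma F_reflect (v j x : ℤ) : F v j (-v - x) = -F v (-j - 3 * v) x := by
  unfold F; ring

/-- **One-sided theorem for very negative `j`** (any `v = l r` with `g l = -1`). -/
theorem one_sided_neg (hg : IsCM g) {l r : ℤ} (j : ℤ) (hl : 0 < l) (hr : 0 < r)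
    (hgl : g l.natAbs = -1) (hj1 : j < -(l * (l * r))) (hj2 : j < r - 3 * (l * r)) {s : ℤ}
    (hs : s = 1 ∨ s = -1) (N : ℤ) :
    ∃ n : ℤ, N < n ∧ F (l * r) j n ≠ 0 ∧ g (F (l * r) j n).natAbs = s := by
  by_contra hcon
  push Not at hcon
  set v : ℤ := l * r with hv
  have hvpos : 0 < v := by rw [hv]; positivity
  have hv1 : 1 ≤ v := hvpos
  have he : (-s = 1) ∨ (-s = -1) := by omega
  have h : ∀ n, N + 1 ≤ n → F v j n ≠ 0 → g (F v j n).natAbs = -s := by
    intro x hx hfx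
    have h1 := hcon x (by omega) hfx
    rcases hg.sign _ (Int.natAbs_ne_zero.mpr hfx) with h2 | h2 <;> rcases hs with rfl | rfl <;>
      simp_all
  have heps := tail_eps hg hv1 he h
  obtain ⟨T1, hT1, t1⟩ := tail_j hg hv1 he h
  have hsq : ¬ IsSquare l := hg.not_sq hl.ne' hgl
  have hK := K_nonneg v j
  have h0 := abs_nonneg j
  have h1 := le_abs_self j
  have h1' := neg_abs_le j
  have h2 := abs_nonneg N
  have h3 := le_abs_self N
  have hGv := hg.sq (by omega : v ≠ 0)
  have hlv : 0 < l * v := by positivity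
  have hlv2 : l * v = l * (l * r) := by rw [hv]
  -- base (r - v, j + 2v; -l v, j)
  have hbase : (-(l * v)) * j =
      l * ((r - v) * (j + 2 * v)) + (2 * (l - 1) * v ^ 2 - j * v) := by rw [hv]; ring
  obtain ⟨D1, D3, hD1, hD3, ⟨d1, hd1⟩, ⟨d3, hd3⟩, hrel⟩ := family hl hsq hbase
    (by omega) (by omega) (by omega) v hv1
    (|N| + K v j + 2 + |j| + v * (T1 + 2) + l * v)
  have hT1v : 0 ≤ v * (T1 + 2) := by positivity
  have f1 : F v j (r - v + D1) ≠ 0 := F_ne_zero (lt_of_lt_of_le (by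
    have : v * 2 ≤ v * (T1 + 2) := by nlinarith
    omega) (le_abs_self _))
  have f3 : F v j (-(l * v) + D3) ≠ 0 := F_ne_zero (lt_of_lt_of_le (by omega) (le_abs_self _))
  have e2 : j + 2 * v - D1 = j - v * (d1 - 2) := by rw [hd1]; ring
  have e4 : j - D3 = j - v * d3 := by rw [hd3]
  have k6 : F v j (j + 2 * v - D1) ≠ 0 ∧ g (F v j (j + 2 * v - D1)).natAbs = g v.natAbs := by
    rw [e2]
    apply t1
    have : v * (T1 + 2) ≤ v * d1 := by rw [← hd1]; omega
    have := le_of_mul_le_mul_left this (by omega)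
    omega
  have k7 : F v j (j - D3) ≠ 0 ∧ g (F v j (j - D3)).natAbs = g v.natAbs := by
    rw [e4]
    apply t1
    have : v * (T1 + 2) ≤ v * d3 := by rw [← hd3]; omega
    have := le_of_mul_le_mul_left this (by omega)
    omega
  have h4 := four_term l r j (r - v + D1) (j + 2 * v - D1) (-(l * v) + D3) (j - D3)
    (by omega) (by omega) (by rw [hrel]; ring)
  have h5 := hg.four hl.ne' f1 k6.1 f3 k7.1 h4
  rw [hgl, k6.2, k7.2, h _ (by
    have : v * 2 ≤ v * (T1 + 2) := by nlinarith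
    omega) f1, h _ (by omega) f3, heps, hGv] at h5
  norm_num at h5

/-- A value with sign `-1` exists for `v = 1` and `a ≡ 5u+1 (mod u²+(u+1)²)`. -/
lemma exists_neg_one (hg : IsCM g) {a u : ℤ} (hD : g (u ^ 2 + (u + 1) ^ 2).natAbs = -1)
    (hdvd : u ^ 2 + (u + 1) ^ 2 ∣ a - 5 * u - 1) : ∃ m : ℤ, g (F 1 a m).natAbs = -1 := by
  obtain ⟨t, ht⟩ := hdvd
  set D : ℤ := u ^ 2 + (u + 1) ^ 2 with hDdef
  have ha : a = 5 * u + 1 + D * t := by linarith
  have hD0 : D ≠ 0 := by
    have : 0 ≤ u ^ 2 := sq_nonneg u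
    have h2 : 0 ≤ (u + 1) ^ 2 := sq_nonneg (u + 1)
    rw [hDdef]
    intro h
    have h3 : u ^ 2 = 0 := by omega
    have h4 : u = 0 := by simpa using h3
    rw [h4] at h; norm_num at h
  set c : ℤ := -(2 * u + 1) - u * (u + 1) * t with hc
  have h1 : F 1 a u = D * c := by rw [ha, hc, hDdef]; unfold F; ring
  have hc0 : c ≠ 0 := by
    intro h
    rw [h, mul_zero] at h1
    exact F_one_ne a u h1
  have h2 : D ^ 2 * F 1 a (-3 * u - 2 - 2 * u * (u + 1) * t) =
      c * (F 1 a (2 * u) * F 1 a (2 * u + 1)) := by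
    rw [ha, hc, hDdef]; unfold F; ring
  by_contra hcon
  push Not at hcon
  have hone : ∀ m, g (F 1 a m).natAbs = 1 := by
    intro m
    rcases hg.sign _ (Int.natAbs_ne_zero.mpr (F_one_ne a m)) with h | h
    · exact h
    · exact absurd h (hcon m)
  have e1 : g c.natAbs = -1 := by
    have := hone u
    rw [h1, hg.gmul hD0 hc0, hD] at this
    linarith
  have e2 : g (D ^ 2 * F 1 a (-3 * u - 2 - 2 * u * (u + 1) * t)).natAbs = 1 := by
    rw [hg.gmul (pow_ne_zero 2 hD0) (F_one_ne _ _), pow_two, hg.gmul hD0 hD0, hg.sq hD0, hone]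
    norm_num
  rw [h2, hg.gmul hc0 (mul_ne_zero (F_one_ne _ _) (F_one_ne _ _)),
    hg.gmul (F_one_ne _ _) (F_one_ne _ _), hone, hone, e1] at e2
  norm_num at e2

end Pool.H12.Cubic
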