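import Pool.Agent.Lib_helper12.Cubic.Defs
import Pool.Agent.Lib_helper12.Cubic.More

/-!
# The theorems for the Liouville function
-/

set_option autoImplicit false

open Polynomial

namespace Pool.H12.Cubic

/-- `n ↦ (-1)^Ω(n)`. -/
def lamN (n : ℕ) : ℤ := (-1) ^ ArithmeticFunction.cardFactors n

lemma lamN_isCM : IsCM lamN where
  mul m n hm hn := by
    unfold lamN
    rw [ArithmeticFunction.cardFactors_mul hm hn, pow_add]
  sign n _ := neg_one_pow_eq_or ℤ _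

lemma lamN_prime {p : ℕ} (hp : p.Prime) : lamN p = -1 := by
  unfold lamN
  rw [ArithmeticFunction.cardFactors_apply_prime hp, pow_one]

lemma lam_of_ne {m : ℤ} (hm : m ≠ 0) : lam m = lamN m.natAbs := by
  unfold lam lamN; rw [if_neg hm]

lemma eval_cub (v j x : ℤ) : (cub v j).eval x = F v j x := by
  unfold cub F
  simp only [eval_sub, eval_mul, eval_pow, eval_X, eval_C]

lemma lam_neg (m : ℤ) : lam (-m) = lam m := by
  unfold lam; simp

lemma to_lam {v j s : ℤ} {n : ℤ} (h : F v j n ≠ 0 ∧ lamN (F v j n).natAbs = s) :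
    lam ((cub v j).eval n) = s := by
  rw [eval_cub, lam_of_ne h.1]; exact h.2

lemma of_reflect (v j n : ℤ) :
    lam ((cub v j).eval (-v - n)) = lam ((cub v (-j - 3 * v)).eval n) := by
  rw [eval_cub, eval_cub, F_reflect, lam_neg]

/-- Two-sided, all `v ≥ 2`. -/
theorem lam_two_sided (v j : ℤ) (hv : 2 ≤ v) (s : ℤ) (hs : s = 1 ∨ s = -1) (N : ℤ) :
    ∃ n : ℤ, N < |n| ∧ lam ((cub v j).eval n) = s := by
  obtain ⟨p, hp, hpv⟩ := Nat.exists_prime_and_dvd (n := v.natAbs) (by omega)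
  obtain ⟨r, hr⟩ := Int.natCast_dvd.mpr hpv
  have hp0 : (0 : ℤ) < p := by exact_mod_cast hp.pos
  have hr0 : 0 < r := by
    by_contra h
    push Not at h
    have : (p : ℤ) * r ≤ 0 := mul_nonpos_of_nonneg_of_nonpos hp0.le h
    omega
  obtain ⟨n, h1, h2⟩ := two_sided lamN_isCM j hp0 hr0
    (by rw [Int.natAbs_natCast]; exact lamN_prime hp) hs N
  rw [← hr] at h2
  exact ⟨n, h1, to_lam h2⟩

/-- Upwards, even `v`. -/
theorem lam_up_even (v j : ℤ) (hv : 2 ≤ v) (he : Even v) (s : ℤ) (hs : s = 1 ∨ s = -1) (N : ℤ) :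
    ∃ n : ℤ, N < n ∧ lam ((cub v j).eval n) = s := by
  obtain ⟨r, hr⟩ := he
  obtain ⟨n, h1, h2⟩ := one_sided_even lamN_isCM (lamN_prime Nat.prime_two) j
    (r := r) (by omega) hs N
  have : 2 * r = v := by omega
  rw [this] at h2
  exact ⟨n, h1, to_lam h2⟩

/-- Upwards, very negative `j`. -/
theorem lam_up_neg (v j : ℤ) (hv : 2 ≤ v) (hj : j < -v ^ 2 - 3 * v) (s : ℤ)
    (hs : s = 1 ∨ s = -1) (N : ℤ) :
    ∃ n : ℤ, N < n ∧ lam ((cub v j).eval n) = s := by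
  obtain ⟨p, hp, hpv⟩ := Nat.exists_prime_and_dvd (n := v.natAbs) (by omega)
  obtain ⟨r, hr⟩ := Int.natCast_dvd.mpr hpv
  have hp0 : (0 : ℤ) < p := by exact_mod_cast hp.pos
  have hr0 : 0 < r := by
    by_contra h
    push Not at h
    have : (p : ℤ) * r ≤ 0 := mul_nonpos_of_nonneg_of_nonpos hp0.le h
    omega
  have hpv' : (p : ℤ) ≤ v := by rw [hr]; nlinarith
  have hpv2 : (p : ℤ) * v ≤ v ^ 2 := by nlinarith
  obtain ⟨n, h1, h2⟩ := one_sided_neg lamN_isCM j hp0 hr0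
    (by rw [Int.natAbs_natCast]; exact lamN_prime hp) (by rw [← hr]; omega)
    (by have := sq_nonneg v; rw [← hr]; omega) hs N
  rw [← hr] at h2
  exact ⟨n, h1, to_lam h2⟩

/-- Upwards. -/
theorem lam_up (v j : ℤ) (hv : 2 ≤ v) (h : Even v ∨ j < -v ^ 2 - 3 * v) (s : ℤ)
    (hs : s = 1 ∨ s = -1) (N : ℤ) :
    ∃ n : ℤ, N < n ∧ lam ((cub v j).eval n) = s := by
  rcases h with h | h
  · exact lam_up_even v j hv h s hs N
  · exact lam_up_neg v j hv h s hs N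

/-- Downwards. -/
theorem lam_down (v j : ℤ) (hv : 2 ≤ v) (h : Even v ∨ v ^ 2 < j) (s : ℤ)
    (hs : s = 1 ∨ s = -1) (N : ℤ) :
    ∃ n : ℤ, n < N ∧ lam ((cub v j).eval n) = s := by
  obtain ⟨n, h1, h2⟩ := lam_up v (-j - 3 * v) hv
    (h.imp id (fun h => by linarith)) s hs (-v - N)
  exact ⟨-v - n, by omega, by rw [of_reflect]; exact h2⟩

/-! ### `v = 1` -/

theorem lam_one_up (a : ℤ) (hm : ∃ m : ℤ, lam ((cub 1 a).eval m) = -1) (s : ℤ)
    (hs : s = 1 ∨ s = -1) (N : ℤ) : ∃ n : ℤ, N < n ∧ lam ((cub 1 a).eval n) = s := by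
  obtain ⟨m, hm⟩ := hm
  rw [eval_cub, lam_of_ne (F_one_ne a m)] at hm
  obtain ⟨n, h1, h2⟩ := dichotomy_one lamN_isCM a ⟨m, hm⟩ hs N
  exact ⟨n, h1, to_lam h2⟩

theorem lam_one_down (a : ℤ) (hm : ∃ m : ℤ, lam ((cub 1 a).eval m) = -1) (s : ℤ)
    (hs : s = 1 ∨ s = -1) (N : ℤ) : ∃ n : ℤ, n < N ∧ lam ((cub 1 a).eval n) = s := by
  obtain ⟨m, hm⟩ := hm
  have hm' : ∃ m : ℤ, lam ((cub 1 (-a - 3 * 1)).eval m) = -1 := by
    refine ⟨-1 - m, ?_⟩
    rw [← of_reflect]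
    have e : -1 - (-1 - m) = m := by ring
    rw [e]; exact hm
  obtain ⟨n, h1, h2⟩ := lam_one_up _ hm' s hs (-1 - N)
  exact ⟨-1 - n, by omega, by rw [of_reflect]; exact h2⟩

theorem lam_one_class {a u : ℤ} (hD : lam (u ^ 2 + (u + 1) ^ 2) = -1)
    (hdvd : u ^ 2 + (u + 1) ^ 2 ∣ a - 5 * u - 1) : ∃ m : ℤ, lam ((cub 1 a).eval m) = -1 := by
  have hD0 : u ^ 2 + (u + 1) ^ 2 ≠ 0 := by
    intro h
    rw [h] at hD
    unfold lam at hD
    simp at hD
  rw [lam_of_ne hD0] at hD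
  obtain ⟨m, hm⟩ := exists_neg_one lamN_isCM hD hdvd
  exact ⟨m, by rw [eval_cub, lam_of_ne (F_one_ne a m)]; exact hm⟩

/-! ### Irreducibility -/

lemma cub_natDegree (v j : ℤ) : (cub v j).natDegree = 3 := by
  unfold cub; compute_degree!

lemma cub_monic (v j : ℤ) : (cub v j).Monic := by
  unfold cub; monicity!

lemma cub_irreducible {v j : ℤ} (h : ∀ x, F v j x ≠ 0) : Irreducible (cub v j) := by
  have hm := cub_monic v j
  rw [hm.irreducible_iff_roots_eq_zero_of_degree_le_three (by rw [cub_natDegree]; norm_num)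
    (by rw [cub_natDegree])]
  rw [Multiset.eq_zero_iff_forall_notMem]
  intro x hx
  rw [mem_roots hm.ne_zero, IsRoot.def, eval_cub] at hx
  exact h x hx

theorem cub_one_irreducible (a : ℤ) : Irreducible (cub 1 a) := cub_irreducible (F_one_ne a)

theorem cub_two_irreducible {j : ℤ} (hj : j ≠ -3) : Irreducible (cub 2 j) := by
  apply cub_irreducible
  intro x hx
  have h1 : x * (x ^ 2 - j * x - 2 * (j + 6)) = 8 := by
    unfold F at hx; linarith
  have h2 : x ∣ 8 := Dvd.intro _ h1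
  have h3 : x.natAbs ∣ 8 := by
    have := Int.natAbs_dvd_natAbs.mpr h2
    simpa using this
  have h4 : x.natAbs ≤ 8 := Nat.le_of_dvd (by norm_num) h3
  have h5 : x.natAbs = 1 ∨ x.natAbs = 2 ∨ x.natAbs = 4 ∨ x.natAbs = 8 := by
    interval_cases h : x.natAbs <;> simp_all
  have h6 : x = 1 ∨ x = -1 ∨ x = 2 ∨ x = -2 ∨ x = 4 ∨ x = -4 ∨ x = 8 ∨ x = -8 := by omega
  rcases h6 with rfl | rfl | rfl | rfl | rfl | rfl | rfl | rfl <;> ring_nf at h1 <;> omega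

end Pool.H12.Cubic
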