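import Pool.Agent.Lib_helper12.Cubic.Range

/-!
# The second sign in short intervals: the abstract Pell argument
-/

set_option autoImplicit false

namespace Pool.H12.Cubic

variable {g : ℕ → ℤ}

lemma id_gen (v j x y m : ℤ) (hs : x + y = j + v) (hm : x * y = v * m) :
    v ^ 3 * F v j (-2 * v - m) = -(F v j x * F v j y) := by
  rw [prod_formula, hs, hm]
  unfold Phi F; ring

/-- Negative integers `n` with `v ∣ n (n - j)` in terms of an interval of positive integers. -/
lemma tail_gen (hg : IsCM g) {v j N M e : ℤ} (hv : 1 ≤ v) (hN : 0 ≤ N) (he : e = 1 ∨ e = -1)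
    (h : ∀ n, N ≤ n → n ≤ M → F v j n ≠ 0 → g (F v j n).natAbs = e) {n : ℤ}
    (hn : v ∣ n * (n - j)) (h1 : |j| + 2 * v + N + K v j + 1 ≤ -n) (h2 : 2 * n ^ 2 ≤ M) :
    F v j n ≠ 0 ∧ g (F v j n).natAbs = g v.natAbs := by
  have hK := K_nonneg v j
  have j0 := abs_nonneg j
  have j1 := le_abs_self j
  have j2 := neg_abs_le j
  obtain ⟨w, hw⟩ := hn
  have f3 : F v j n ≠ 0 := F_ne_zero (lt_of_lt_of_le (by omega) (neg_le_abs _))
  refine ⟨f3, ?_⟩
  have hm : n * (j + v - n) = v * (n - w) := by linear_combination -hw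
  have hid := id_gen v j n (j + v - n) (n - w) (by ring) hm
  have y1 : N + K v j + 1 + 3 * v ≤ j + v - n := by omega
  have z1 : N + K v j + 1 ≤ -2 * v - (n - w) := by
    have e1 : v * (N + K v j + 1) ≤ v * (-2 * v - (n - w)) := by
      have : v * (-2 * v - (n - w)) = -(2 * v ^ 2) + (-n) * (j + v - n) := by
        linear_combination hm
      rw [this]
      have : v * (N + K v j + 1 + 3 * v) ≤ (-n) * (j + v - n) := by
        apply mul_le_mul (by omega) y1 (by omega) (by omega)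
      nlinarith
    exact le_of_mul_le_mul_left e1 (by omega)
  have n2 : -n ≤ n ^ 2 := by nlinarith
  have y2 : j + v - n ≤ M := by nlinarith
  have z2 : -2 * v - (n - w) ≤ M := by
    have e1 : v * (-2 * v - (n - w)) ≤ v * M := by
      have : v * (-2 * v - (n - w)) = -(2 * v ^ 2) + (-n) * (j + v - n) := by
        linear_combination hm
      rw [this]
      have a1 : (-n) * (j + v - n) ≤ (-n) * (-2 * n) := by
        apply mul_le_mul_of_nonneg_left (by omega) (by omega)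
      have a2 : (0 : ℤ) ≤ M := by nlinarith
      nlinarith
    exact le_of_mul_le_mul_left e1 (by omega)
  have f1 : F v j (-2 * v - (n - w)) ≠ 0 :=
    F_ne_zero (lt_of_lt_of_le (by omega) (le_abs_self _))
  have f2 : F v j (j + v - n) ≠ 0 :=
    F_ne_zero (lt_of_lt_of_le (by omega) (le_abs_self _))
  have := hg.three (by omega : v ≠ 0) f1 f3 f2 hid
  rw [h _ (by omega) z2 f1, h _ (by omega) y2 f2] at this
  rcases he with rfl | rfl <;> linarith

/-- **The abstract Pell argument.** -/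
lemma pell_minus (hg : IsCM g) {v j l c x1 x2 x3 x4 : ℤ} (hv : 1 ≤ v) (hl : 0 < l)
    (hgl : g l.natAbs = -1) (h : x3 * x4 = l * (x1 * x2) + c) (hu : 0 ≤ x1 - x2)
    (hw : 0 ≤ x3 - x4) (huw : 1 ≤ (x1 - x2) + (x3 - x4))
    (h2 : v ∣ x2 * (x2 - j)) (h4 : v ∣ x4 * (x4 - j))
    (hterm : ∀ D1 D3 : ℤ, (x3 + D3) * (x4 - D3) = l * ((x1 + D1) * (x2 - D1)) + c →
      l ^ 3 * (F v j (x1 + D1) * F v j (x2 - D1)) = F v j (x3 + D3) * F v j (x4 - D3)) :
    ∃ C N₀ : ℤ, 1 ≤ C ∧ ∀ N : ℤ, N₀ ≤ N → ∃ n : ℤ, N ≤ n ∧ n ≤ C * N ^ 2 ∧ F v j n ≠ 0 ∧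
      g (F v j n).natAbs = -g v.natAbs := by
  have hsq : ¬ IsSquare l := hg.not_sq hl.ne' hgl
  obtain ⟨κ, hκ, hfam⟩ := range_family hl hsq h hu hw huw v hv
  set B : ℤ := |x1| + |x2| + |x3| + |x4| + |j| + 2 * v + K v j + 2 with hB
  have hK := K_nonneg v j
  have b1 := abs_nonneg x1
  have b2 := abs_nonneg x2
  have b3 := abs_nonneg x3
  have b4 := abs_nonneg x4
  have b5 := abs_nonneg j
  have c1 := le_abs_self x1
  have c2 := le_abs_self x2
  have c3 := le_abs_self x3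
  have c4 := le_abs_self x4
  have d1 := neg_abs_le x1
  have d2 := neg_abs_le x2
  have d3 := neg_abs_le x3
  have d4 := neg_abs_le x4
  refine ⟨18 * κ ^ 2, B, by nlinarith, fun N hN => ?_⟩
  by_contra hcon
  push Not at hcon
  have hgv := hg.sign v.natAbs (Int.natAbs_ne_zero.mpr (by omega))
  have hyp : ∀ n, N ≤ n → n ≤ 18 * κ ^ 2 * N ^ 2 → F v j n ≠ 0 →
      g (F v j n).natAbs = g v.natAbs := by
    intro n h5 h6 h7
    have h8 := hcon n h5 h6 h7
    rcases hg.sign _ (Int.natAbs_ne_zero.mpr h7) with h9 | h9 <;> rcases hgv with h10 | h10 <;>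
      omega
  obtain ⟨D1, D3, e1, e3, e1', e3', dv1, dv3, hrel⟩ := hfam (2 * N) (by omega)
  have hterm' := hterm D1 D3 hrel
  have hN1 : 1 ≤ N := by omega
  have hκN : N ≤ κ * N := by nlinarith
  have hκN' : κ * (2 * N) = 2 * (κ * N) := by ring
  rw [hκN'] at e1' e3'
  have hsq' : 18 * κ ^ 2 * N ^ 2 = 2 * (3 * (κ * N)) ^ 2 := by ring
  have up : ∀ x : ℤ, 0 ≤ x → x ≤ 3 * (κ * N) → x ≤ 18 * κ ^ 2 * N ^ 2 := by
    intro x hx0 hx; rw [hsq']; nlinarith
  have up2 : ∀ x : ℤ, -(3 * (κ * N)) ≤ x → x ≤ 0 → 2 * x ^ 2 ≤ 18 * κ ^ 2 * N ^ 2 := by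
    intro x hx hx0; rw [hsq']
    have : x ^ 2 ≤ (3 * (κ * N)) ^ 2 := by
      apply sq_le_sq'
      · omega
      · omega
    linarith
  have dd : ∀ x D : ℤ, v ∣ x * (x - j) → v ∣ D → v ∣ (x - D) * (x - D - j) := by
    intro x D hx hD
    have : (x - D) * (x - D - j) = x * (x - j) - D * (2 * x - D - j) := by ring
    rw [this]
    exact dvd_sub hx (Dvd.dvd.mul_right hD _)
  have f1 : F v j (x1 + D1) ≠ 0 := F_ne_zero (lt_of_lt_of_le (by omega) (le_abs_self _))
  have f3 : F v j (x3 + D3) ≠ 0 := F_ne_zero (lt_of_lt_of_le (by omega) (le_abs_self _))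
  have t2 := tail_gen hg hv (by omega) hgv hyp (n := x2 - D1) (dd x2 D1 h2 dv1) (by omega)
    (up2 _ (by omega) (by omega))
  have t4 := tail_gen hg hv (by omega) hgv hyp (n := x4 - D3) (dd x4 D3 h4 dv3) (by omega)
    (up2 _ (by omega) (by omega))
  have g1 := hyp (x1 + D1) (by omega) (up _ (by omega) (by omega)) f1
  have g3 := hyp (x3 + D3) (by omega) (up _ (by omega) (by omega)) f3
  have h5 := hg.four hl.ne' f1 t2.1 f3 t4.1 hterm'
  rw [hgl, t2.2, t4.2, g1, g3, hg.sq (by omega : v ≠ 0)] at h5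
  norm_num at h5

/-- The two four term relations. -/
lemma term1 (l r j x1 x2 x3 x4 : ℤ) (h12 : x1 + x2 = j + l * r + r)
    (h34 : x3 + x4 = j - l * (l * r)) (D1 D3 : ℤ)
    (h : (x3 + D3) * (x4 - D3) = l * ((x1 + D1) * (x2 - D1)) +
      (2 * (l - 1) * (l * r) ^ 2 - j * (l * r))) :
    l ^ 3 * (F (l * r) j (x1 + D1) * F (l * r) j (x2 - D1)) =
      F (l * r) j (x3 + D3) * F (l * r) j (x4 - D3) :=
  four_term l r j _ _ _ _ (by linarith) (by linarith) (by linarith)

lemma four_term' (l r j x1 x2 x3 x4 : ℤ) (h12 : x1 + x2 = j - r)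
    (h34 : x3 + x4 = j + (1 + l) * (l * r))
    (h : x3 * x4 = l * (x1 * x2) + (2 * (l - 1) * (l * r) ^ 2 + l * j * (l * r))) :
    l ^ 3 * (F (l * r) j x1 * F (l * r) j x2) = F (l * r) j x3 * F (l * r) j x4 := by
  rw [prod_formula, prod_formula, h12, h34, h]
  unfold Phi; ring

lemma term2 (l r j x1 x2 x3 x4 : ℤ) (h12 : x1 + x2 = j - r)
    (h34 : x3 + x4 = j + (1 + l) * (l * r)) (D1 D3 : ℤ)
    (h : (x3 + D3) * (x4 - D3) = l * ((x1 + D1) * (x2 - D1)) +
      (2 * (l - 1) * (l * r) ^ 2 + l * j * (l * r))) :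
    l ^ 3 * (F (l * r) j (x1 + D1) * F (l * r) j (x2 - D1)) =
      F (l * r) j (x3 + D3) * F (l * r) j (x4 - D3) :=
  four_term' l r j _ _ _ _ (by linarith) (by linarith) (by linarith)

/-- the conclusion about the sign `-g(v)` -/
def MinusOften (g : ℕ → ℤ) (v j : ℤ) : Prop :=
  ∃ C N₀ : ℤ, 1 ≤ C ∧ ∀ N : ℤ, N₀ ≤ N → ∃ n : ℤ, N ≤ n ∧ n ≤ C * N ^ 2 ∧ F v j n ≠ 0 ∧
      g (F v j n).natAbs = -g v.natAbs

/-- base with `j < -r`. -/
lemma minus_neg (hg : IsCM g) {l r j : ℤ} (hl : 0 < l) (hr : 0 < r) (hgl : g l.natAbs = -1)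
    (hj : j < -r) : MinusOften g (l * r) j := by
  have hv : 1 ≤ l * r := one_le_of_pos' (mul_pos hl hr)
  rcases le_total (j + 2 * (l * r)) ((l - 1) * (l * r)) with h | h
  · exact pell_minus hg hv hl hgl
      (show ((l - 1) * (l * r)) * (j + 2 * (l * r)) = l * ((-r) * j) +
        (2 * (l - 1) * (l * r) ^ 2 + l * j * (l * r)) by ring)
      (by omega) (by omega) (by omega) ⟨j - j + 0, by ring⟩
      ⟨2 * (j + 2 * (l * r)), by ring⟩
      (term2 l r j _ _ _ _ (by ring) (by ring))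
  · exact pell_minus hg hv hl hgl
      (show (j + 2 * (l * r)) * ((l - 1) * (l * r)) = l * ((-r) * j) +
        (2 * (l - 1) * (l * r) ^ 2 + l * j * (l * r)) by ring)
      (by omega) (by omega) (by omega) ⟨j - j + 0, by ring⟩
      ⟨(l - 1) * ((l - 1) * (l * r) - j), by ring⟩
      (term2 l r j _ _ _ _ (by ring) (by ring))

/-- base with `l ∣ j + r`. -/
lemma minus_plus (hg : IsCM g) {l r j : ℤ} (hl : 0 < l) (hr : 0 < r) (hgl : g l.natAbs = -1)
    (hj : -r ≤ j) (hd : l ∣ j + r) : MinusOften g (l * r) j := by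
  have hv : 1 ≤ l * r := one_le_of_pos' (mul_pos hl hr)
  obtain ⟨w, hw⟩ := hd
  have hne : j ≠ -r ∨ j + 2 * (l * r) ≠ (l - 1) * (l * r) := by
    by_contra hcon
    push Not at hcon
    obtain ⟨h1, h2⟩ := hcon
    have h3 : (l ^ 2 - 3 * l + 1) * r = 0 := by rw [h1] at h2; linarith
    have h4 : l ^ 2 - 3 * l + 1 = 0 := by
      rcases mul_eq_zero.mp h3 with h | h
      · exact h
      · omega
    have h5 : l ≤ 3 := by nlinarith
    interval_cases l <;> omega
  rcases le_total (j + 2 * (l * r)) ((l - 1) * (l * r)) with h | h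
  · exact pell_minus hg hv hl hgl
      (show ((l - 1) * (l * r)) * (j + 2 * (l * r)) = l * (j * (-r)) +
        (2 * (l - 1) * (l * r) ^ 2 + l * j * (l * r)) by ring)
      (by omega) (by omega) (by omega) ⟨w, by linear_combination r * hw⟩
      ⟨2 * (j + 2 * (l * r)), by ring⟩
      (term2 l r j _ _ _ _ (by ring) (by ring))
  · exact pell_minus hg hv hl hgl
      (show (j + 2 * (l * r)) * ((l - 1) * (l * r)) = l * (j * (-r)) +
        (2 * (l - 1) * (l * r) ^ 2 + l * j * (l * r)) by ring)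
      (by omega) (by omega) (by omega) ⟨w, by linear_combination r * hw⟩
      ⟨(l - 1) * ((l - 1) * (l * r) - j), by ring⟩
      (term2 l r j _ _ _ _ (by ring) (by ring))

/-- base with `l ∣ j - r`. -/
lemma minus_minus (hg : IsCM g) {l r j : ℤ} (hl : 0 < l) (hr : 0 < r) (hgl : g l.natAbs = -1)
    (hj : -r ≤ j) (hd : l ∣ j - r) : MinusOften g (l * r) j := by
  have hv : 1 ≤ l * r := one_le_of_pos' (mul_pos hl hr)
  have hl2 : 2 ≤ l := by
    rcases lt_or_ge l 2 with h | h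
    · have : l = 1 := by omega
      subst this
      have := hg.one
      simp at hgl
      omega
    · exact h
  have hr2 : 2 * r ≤ l * r := by nlinarith
  obtain ⟨w, hw⟩ := hd
  rcases le_total (-(l * (l * r))) j with h | h
  · exact pell_minus hg hv hl hgl
      (show j * (-(l * (l * r))) = l * ((j + 2 * (l * r)) * (r - l * r)) +
        (2 * (l - 1) * (l * r) ^ 2 - j * (l * r)) by ring)
      (by omega) (by omega) (by omega)
      ⟨(l - 1) * (w + r), by linear_combination (l - 1) * r * hw⟩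
      ⟨l * (l * (l * r) + j), by ring⟩
      (term1 l r j _ _ _ _ (by ring) (by ring))
  · exact pell_minus hg hv hl hgl
      (show (-(l * (l * r))) * j = l * ((j + 2 * (l * r)) * (r - l * r)) +
        (2 * (l - 1) * (l * r) ^ 2 - j * (l * r)) by ring)
      (by omega) (by omega) (by omega)
      ⟨(l - 1) * (w + r), by linear_combination (l - 1) * r * hw⟩
      ⟨0, by ring⟩
      (term1 l r j _ _ _ _ (by ring) (by ring))

/-- base for even `v` and `j ≥ -6 r`. -/
lemma minus_even (hg : IsCM g) {r j : ℤ} (hr : 0 < r) (hg2 : g 2 = -1)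
    (hj : -(6 * r) ≤ j) : MinusOften g (2 * r) j := by
  have hgl : g (2 : ℤ).natAbs = -1 := by simpa using hg2
  exact pell_minus hg (by omega) two_pos hgl
    (show (j + 2 * r) * (-(6 * r)) = 2 * ((j + 5 * r) * (-(2 * r))) +
      (2 * (2 - 1) * (2 * r) ^ 2 - j * (2 * r)) by ring)
    (by omega) (by omega) (by omega) ⟨2 * r + j, by ring⟩ ⟨3 * (6 * r + j), by ring⟩
    (term1 2 r j _ _ _ _ (by ring) (by ring))

theorem minus_even_all (hg : IsCM g) {r : ℤ} (j : ℤ) (hr : 0 < r) (hg2 : g 2 = -1) :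
    MinusOften g (2 * r) j := by
  rcases le_or_gt (-(6 * r)) j with hj | hj
  · exact minus_even hg hr hg2 hj
  · exact minus_neg hg two_pos hr (by simpa using hg2) (by omega)

end Pool.H12.Cubic
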