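import Pool.Agent.Lib_helper11.Cubic.Final
import Pool.Agent.Lib_helper12.Cubic.Final
import Pool.Agent.Lib_helper12.Cubic.Minus

/-!
# Both signs of the Liouville function in every interval `[N, 2 N^4]`
-/

set_option autoImplicit false

open Polynomial

namespace Pool.H12.Cubic

open Pool.Agent.Lib_helper11.Cubic (liouville cubic be)

lemma F11 (A t n : ℤ) : Pool.Agent.Lib_helper11.Cubic.F A t n = F t A n := by
  unfold Pool.Agent.Lib_helper11.Cubic.F F; ring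

lemma liouville_of_ne {m : ℤ} (hm : m ≠ 0) : liouville m = lamN m.natAbs := by
  unfold liouville lamN; rw [if_neg hm]

lemma be_minus_of {A t : ℤ} (ht : 1 ≤ t) (h : MinusOften lamN t A) :
    ∃ N₀ : ℤ, ∀ N, N₀ ≤ N → ∃ v, N ≤ v ∧ v ≤ 2 * N ^ 4 ∧ be A t v = -1 := by
  obtain ⟨C, N₀, hC, h⟩ := h
  refine ⟨|N₀| + C, fun N hN => ?_⟩
  have h1 := le_abs_self N₀
  have h0 := abs_nonneg N₀
  obtain ⟨n, hn1, hn2, hn3, hn4⟩ := h N (by omega)
  refine ⟨n, hn1, ?_, ?_⟩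
  · have hN1 : 1 ≤ N := by omega
    have hCN : C ≤ N ^ 2 := by nlinarith
    have hsq : 0 ≤ N ^ 2 := by positivity
    have : C * N ^ 2 ≤ N ^ 2 * N ^ 2 := mul_le_mul_of_nonneg_right hCN hsq
    have e : N ^ 2 * N ^ 2 = N ^ 4 := by ring
    have : (0 : ℤ) ≤ N ^ 4 := by positivity
    linarith
  · unfold be
    rw [F11, liouville_of_ne hn3, liouville_of_ne (by omega : t ≠ 0), hn4, mul_neg]
    have := lamN_isCM.sq (by omega : t ≠ 0)
    rw [this]

/-- The condition on `(t, A)`, `t ≥ 2`. -/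
def Good (t A : ℤ) : Prop :=
  Even t ∨ ∃ l r : ℤ, t = l * r ∧ 0 < l ∧ liouville l = -1 ∧ (A < -r ∨ l ∣ A + r ∨ l ∣ A - r)

lemma minus_of_good {t A : ℤ} (ht : 1 ≤ t) (h : Good t A) : MinusOften lamN t A := by
  rcases h with ⟨r, hr⟩ | ⟨l, r, hlr, hl, hll, h⟩
  · have : 2 * r = t := by omega
    rw [← this]
    exact minus_even_all lamN_isCM A (by omega) (lamN_prime Nat.prime_two)
  · have hgl : lamN l.natAbs = -1 := by rw [← liouville_of_ne (by omega)]; exact hll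
    have hr : 0 < r := by
      by_contra hcon
      push Not at hcon
      have : l * r ≤ 0 := mul_nonpos_of_nonneg_of_nonpos hl.le hcon
      omega
    rw [hlr]
    rcases lt_or_ge A (-r) with h1 | h1
    · exact minus_neg lamN_isCM hl hr hgl h1
    · rcases h with h | h | h
      · omega
      · exact minus_plus lamN_isCM hl hr hgl h1 h
      · exact minus_minus lamN_isCM hl hr hgl h1 h

/-- For `t ≥ 2` one of `(t, A)`, `(t, -3t-A)` satisfies the condition. -/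
lemma good_or {t A : ℤ} (ht : 2 ≤ t) : Good t A ∨ Good t (-3 * t - A) := by
  obtain ⟨p, hp, hpt⟩ := Nat.exists_prime_and_dvd (n := t.natAbs) (by omega)
  obtain ⟨r, hr⟩ := Int.natCast_dvd.mpr hpt
  have hp0 : (0 : ℤ) < p := by exact_mod_cast hp.pos
  have hp2 : (2 : ℤ) ≤ p := by exact_mod_cast hp.two_le
  have hr0 : 0 < r := by
    by_contra h
    push Not at h
    have : (p : ℤ) * r ≤ 0 := mul_nonpos_of_nonneg_of_nonpos hp0.le h
    omega
  have h2r : 2 * r ≤ t := by rw [hr]; nlinarith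
  have hlam : liouville (p : ℤ) = -1 := Pool.Agent.Lib_helper11.Cubic.liouville_prime hp
  rcases lt_or_ge A (-r) with h | h
  · exact Or.inl (Or.inr ⟨p, r, hr, hp0, hlam, Or.inl h⟩)
  · exact Or.inr (Or.inr ⟨p, r, hr, hp0, hlam, Or.inl (by omega)⟩)

/-- Both signs in every interval `[N, 2N^4]`. -/
def BothOften (A t : ℤ) : Prop :=
  ∃ N₀ : ℕ, ∀ N : ℕ, N₀ ≤ N → ∀ s : ℤ, s = 1 ∨ s = -1 →
      ∃ n : ℕ, N ≤ n ∧ n ≤ 2 * N ^ 4 ∧ liouville ((cubic A t).eval (n : ℤ)) = s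

lemma both_good {t A : ℤ} (ht : 1 ≤ t) (hF : ∀ n, Pool.Agent.Lib_helper11.Cubic.F A t n ≠ 0)
    (h : Good t A) : BothOften A t :=
  Pool.Agent.Lib_helper11.Cubic.both_of ht hF (be_minus_of ht (minus_of_good ht h))

lemma both_one {A : ℤ} (h : (∃ m : ℤ, liouville ((cubic A 1).eval m) = -1) ∨
      ∃ u : ℤ, liouville (u ^ 2 + (u + 1) ^ 2) = -1 ∧ u ^ 2 + (u + 1) ^ 2 ∣ A - 5 * u - 1) :
    BothOften A 1 := by
  apply Pool.Agent.Lib_helper11.Cubic.both_of le_rfl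
    (Pool.Agent.Lib_helper11.Cubic.F_one_ne A)
  apply Pool.Agent.Lib_helper11.Cubic.minus_one
  have key : ∀ m, liouville ((cubic A 1).eval m) = -1 → be A 1 m = -1 := by
    intro m hm
    unfold be
    rw [← Pool.Agent.Lib_helper11.Cubic.cubic_eval, hm,
      Pool.Agent.Lib_helper11.Cubic.liouville_one, one_mul]
  rcases h with ⟨m, hm⟩ | ⟨u, hu, hdvd⟩
  · exact ⟨m, key m hm⟩
  · have hD0 : u ^ 2 + (u + 1) ^ 2 ≠ 0 := by
      intro h
      rw [h] at hu
      unfold liouville at hu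
      simp at hu
    rw [liouville_of_ne hD0] at hu
    obtain ⟨m, hm⟩ := exists_neg_one lamN_isCM hu hdvd
    refine ⟨m, key m ?_⟩
    rw [Pool.Agent.Lib_helper11.Cubic.cubic_eval, F11, liouville_of_ne (F_one_ne A m)]
    exact hm

lemma both_abs {t A : ℤ} (ht : 2 ≤ t) (hF : ∀ n, Pool.Agent.Lib_helper11.Cubic.F A t n ≠ 0) :
    ∃ N₀ : ℕ, ∀ N : ℕ, N₀ ≤ N → ∀ s : ℤ, s = 1 ∨ s = -1 →
      ∃ n : ℤ, (N : ℤ) ≤ |n| ∧ |n| ≤ 3 * (N : ℤ) ^ 4 ∧ liouville ((cubic A t).eval n) = s := by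
  rcases good_or (A := A) ht with h | h
  · obtain ⟨N₀, hN₀⟩ := both_good (by omega) hF h
    refine ⟨N₀, fun N hN s hs => ?_⟩
    obtain ⟨n, h1, h2, h3⟩ := hN₀ N hN s hs
    refine ⟨n, ?_, ?_, h3⟩
    · rw [abs_of_nonneg (by omega)]; exact_mod_cast h1
    · rw [abs_of_nonneg (by omega)]
      have : (n : ℤ) ≤ 2 * (N : ℤ) ^ 4 := by exact_mod_cast h2
      have : (0 : ℤ) ≤ (N : ℤ) ^ 4 := by positivity
      linarith
  · have hF' : ∀ n, Pool.Agent.Lib_helper11.Cubic.F (-3 * t - A) t n ≠ 0 := by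
      intro n hn
      apply hF (-t - n)
      rw [F11, F_reflect]
      rw [F11] at hn
      have e : -A - 3 * t = -3 * t - A := by ring
      rw [e, hn, neg_zero]
    obtain ⟨N₀, hN₀⟩ := both_good (by omega) hF' h
    refine ⟨N₀ + t.toNat, fun N hN s hs => ?_⟩
    obtain ⟨n, h1, h2, h3⟩ := hN₀ N (by omega) s hs
    have h2' : (n : ℤ) ≤ 2 * (N : ℤ) ^ 4 := by exact_mod_cast h2
    refine ⟨-t - n, ?_, ?_, ?_⟩
    · rw [abs_of_nonpos (by omega)]; omega
    · rw [abs_of_nonpos (by omega)]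
      have h4 : (N : ℤ) ≤ (N : ℤ) ^ 4 := by
        have : N ≤ N ^ 4 := Nat.le_self_pow (by norm_num) N
        exact_mod_cast this
      omega
    · rw [Pool.Agent.Lib_helper11.Cubic.cubic_eval, F11] at h3 ⊢
      rw [F_reflect, Pool.Agent.Lib_helper11.Cubic.liouville_neg]
      have e : -A - 3 * t = -3 * t - A := by ring
      rw [e]; exact h3

end Pool.H12.Cubic
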