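import Pool.Agent.Lib_helper12.Cubic.Tails

/-!
# The simplest cubics `X^3 - a X^2 - (a+3) X - 1` (`v = 1`): the dichotomy
-/

set_option autoImplicit false

namespace Pool.H12.Cubic

variable {g : ℕ → ℤ}

lemma F_one_ne (a x : ℤ) : F 1 a x ≠ 0 := by
  intro h
  have h2 : (F 1 a x) % 2 = 1 := by
    have e : F 1 a x = x ^ 3 - a * x ^ 2 - (a + 3) * x - 1 := by unfold F; ring
    rcases Int.even_or_odd' x with ⟨k, rfl | rfl⟩
    · rw [e]
      have : (2 * k) ^ 3 - a * (2 * k) ^ 2 - (a + 3) * (2 * k) - 1 =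
        2 * (4 * k ^ 3 - 2 * a * k ^ 2 - (a + 3) * k - 1) + 1 := by ring
      rw [this]; omega
    · rw [e]
      have : (2 * k + 1) ^ 3 - a * (2 * k + 1) ^ 2 - (a + 3) * (2 * k + 1) - 1 =
        2 * (4 * k ^ 3 + 6 * k ^ 2 + 3 * k - 2 * a * k ^ 2 - 2 * a * k - a - (a + 3) * k - 2) + 1
          := by ring
      rw [this]; omega
  rw [h] at h2
  norm_num at h2

/-- the sign of `F 1 a x`. -/
def L (g : ℕ → ℤ) (a x : ℤ) : ℤ := g (F 1 a x).natAbs

lemma L_cases (hg : IsCM g) (a x : ℤ) : L g a x = 1 ∨ L g a x = -1 :=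
  hg.sign _ (Int.natAbs_ne_zero.mpr (F_one_ne a x))

lemma L_A (hg : IsCM g) (a x : ℤ) :
    L g a (x ^ 2 - (a + 1) * x - 2) = L g a x * L g a (a + 1 - x) := by
  have h : (1 : ℤ) ^ 3 * F 1 a (x ^ 2 - (a + 1) * x - 2) = -(F 1 a x * F 1 a (a + 1 - x)) := by
    unfold F; ring
  have := hg.three one_ne_zero (F_one_ne _ _) (F_one_ne _ _) (F_one_ne _ _) h
  have h1 : g (1 : ℤ).natAbs = 1 := by simpa using hg.one
  rw [h1, one_mul] at this
  exact this

lemma L_B (hg : IsCM g) (a x : ℤ) :
    L g a (-x ^ 2 + a * x + a + 2) = L g a x * L g a (a - x) := by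
  have h : (1 : ℤ) ^ 3 * F 1 a (-x ^ 2 + a * x + a + 2) = F 1 a x * F 1 a (a - x) := by
    unfold F; ring
  have := hg.three' one_ne_zero (F_one_ne _ _) (F_one_ne _ _) (F_one_ne _ _) h
  have h1 : g (1 : ℤ).natAbs = 1 := by simpa using hg.one
  rw [h1, one_mul] at this
  exact this

lemma L_reflect (a x : ℤ) : L g a (-1 - x) = L g (-a - 3) x := by
  unfold L
  have : F 1 a (-1 - x) = -F 1 (-a - 3) x := by unfold F; ring
  rw [this, Int.natAbs_neg]

lemma L_zero (hg : IsCM g) (a : ℤ) : L g a 0 = 1 := by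
  have : F 1 a 0 = -1 := by unfold F; ring
  unfold L; rw [this]; simpa using hg.one

lemma L_neg_one (hg : IsCM g) (a : ℤ) : L g a (-1) = 1 := by
  have : F 1 a (-1) = 1 := by unfold F; ring
  unfold L; rw [this]; simpa using hg.one

lemma L_one (a : ℤ) : L g a 1 = L g a (-2) := by
  have : F 1 a 1 = F 1 a (-2) := by unfold F; ring
  unfold L; rw [this]

/-- Descent: if `L = 1` outside a bounded set, then `L = 1` everywhere (`a ≥ -1`). -/
lemma descent (hg : IsCM g) {a : ℤ} (ha : -1 ≤ a) {M : ℤ}
    (hM : ∀ n, M ≤ |n| → L g a n = 1) : ∀ n, L g a n = 1 := by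
  -- outer region
  have outer : ∀ d : ℕ, ∀ k : ℤ, 2 ≤ k → M - d ≤ k → L g a (-k) = 1 ∧ L g a (a + 1 + k) = 1 := by
    intro d
    induction d with
    | zero =>
      intro k hk hMk
      have hk' : M ≤ k := by simpa using hMk
      constructor
      · exact hM _ (le_trans hk' (by rw [abs_neg]; exact le_abs_self k))
      · exact hM _ (le_trans (by omega) (le_abs_self (a + 1 + k)))
    | succ d ih =>
      intro k hk hMk
      by_cases hk2 : M - d ≤ k
      · exact ih k hk hk2
      · have hih : ∀ k' : ℤ, k < k' → L g a (-k') = 1 ∧ L g a (a + 1 + k') = 1 := by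
          intro k' hk'
          apply ih k' (by omega)
          push_cast at hMk; omega
        have h1 : L g a (a + 1 + k) = 1 := by
          have hb := L_B hg a (-(k + 1))
          have e1 : -(-(k + 1)) ^ 2 + a * (-(k + 1)) + a + 2 = -((k + 1) ^ 2 + a * k - 2) := by ring
          have e2 : a - -(k + 1) = a + 1 + k := by ring
          rw [e1, e2, (hih (k + 1) (by omega)).1, one_mul] at hb
          rw [← hb]
          exact (hih _ (by nlinarith)).1
        refine ⟨?_, h1⟩
        have hA := L_A hg a (-k)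
        have e1 : (-k) ^ 2 - (a + 1) * (-k) - 2 = a + 1 + (k ^ 2 + (a + 1) * k - a - 3) := by ring
        have e2 : a + 1 - -k = a + 1 + k := by ring
        rw [e1, e2, h1, mul_one] at hA
        rw [← hA]
        have hge : k ≤ k ^ 2 + (a + 1) * k - a - 3 := by nlinarith
        rcases hge.eq_or_lt with h | h
        · rw [← h]; exact h1
        · exact (hih _ h).2
  have T : ∀ k : ℤ, 2 ≤ k → L g a (-k) = 1 ∧ L g a (a + 1 + k) = 1 := by
    intro k hk
    exact outer (M - k).toNat k hk (by omega)
  have h0 := L_zero hg a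
  have hm1 := L_neg_one hg a
  have hm2 := (T 2 le_rfl).1
  have h1 : L g a 1 = 1 := by rw [L_one]; exact hm2
  -- window `1 ≤ n ≤ a`
  have win : ∀ d : ℕ, (1 + d : ℤ) ≤ a → L g a (1 + d) = 1 := by
    intro d
    induction d with
    | zero => intro _; simpa using h1
    | succ d ih =>
      intro hd
      push_cast at hd ⊢
      have hn := ih (by omega)
      set n : ℤ := 1 + (d : ℤ) with hn'
      have hn1 : 1 ≤ n := by omega
      have hna : n ≤ a - 1 := by omega
      have e0 : 1 + ((d : ℤ) + 1) = n + 1 := by rw [hn']; ring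
      rw [e0]
      have hA := L_A hg a (n + 1)
      have hB := L_B hg a n
      have e1 : (n + 1) ^ 2 - (a + 1) * (n + 1) - 2 = -((n + 1) * (a - n) + 2) := by ring
      have e2 : a + 1 - (n + 1) = a - n := by ring
      have e3 : -n ^ 2 + a * n + a + 2 = a + 1 + (n * (a - n) + 1) := by ring
      rw [e1, e2, (T _ (by nlinarith)).1] at hA
      rw [e3, (T _ (by nlinarith)).2, hn, one_mul] at hB
      rw [← hB, mul_one] at hA
      exact hA.symm
  have hwin : ∀ n : ℤ, 1 ≤ n → n ≤ a → L g a n = 1 := by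
    intro n h1n hna
    have := win (n - 1).toNat (by omega)
    have e : (1 : ℤ) + ((n - 1).toNat : ℤ) = n := by omega
    rwa [e] at this
  have ha1 : L g a (a + 1) = 1 := by
    have hA := L_A hg a 0
    have e1 : (0 : ℤ) ^ 2 - (a + 1) * 0 - 2 = -2 := by ring
    rw [e1, h0, hm2, one_mul, sub_zero] at hA
    exact hA.symm
  have ha0 : L g a a = 1 := by
    rcases lt_or_ge a 1 with h | h
    · have : a = -1 ∨ a = 0 := by omega
      rcases this with rfl | rfl
      · exact hm1
      · exact h0
    · exact hwin a h le_rfl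
  have ha2 : L g a (a + 2) = 1 := by
    have hA := L_A hg a (-1)
    have e1 : (-1 : ℤ) ^ 2 - (a + 1) * (-1) - 2 = a := by ring
    have e2 : a + 1 - -1 = a + 2 := by ring
    rw [e1, e2, hm1, ha0, one_mul] at hA
    exact hA.symm
  intro n
  rcases le_or_gt n (-2) with h | h
  · have := (T (-n) (by omega)).1
    rwa [neg_neg] at this
  · rcases le_or_gt (a + 3) n with h' | h'
    · have := (T (n - a - 1) (by omega)).2
      have e : a + 1 + (n - a - 1) = n := by ring
      rwa [e] at this
    · have hn : n = -1 ∨ n = 0 ∨ (1 ≤ n ∧ n ≤ a) ∨ n = a + 1 ∨ n = a + 2 := by omega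
      rcases hn with rfl | rfl | ⟨q1, q2⟩ | rfl | rfl
      · exact hm1
      · exact h0
      · exact hwin n q1 q2
      · exact ha1
      · exact ha2

/-- **Dichotomy for the simplest cubics.** If one value has sign `-1`, both signs occur
infinitely often among the positive integers. -/
theorem dichotomy_one (hg : IsCM g) (a : ℤ) (hm : ∃ m : ℤ, g (F 1 a m).natAbs = -1) {s : ℤ}
    (hs : s = 1 ∨ s = -1) (N : ℤ) :
    ∃ n : ℤ, N < n ∧ F 1 a n ≠ 0 ∧ g (F 1 a n).natAbs = s := by
  by_contra hcon
  push Not at hcon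
  have he : (-s = 1) ∨ (-s = -1) := by omega
  have h : ∀ n, N + 1 ≤ n → F 1 a n ≠ 0 → g (F 1 a n).natAbs = -s := by
    intro x hx hfx
    have h1 := hcon x (by omega) hfx
    rcases hg.sign _ (Int.natAbs_ne_zero.mpr hfx) with h2 | h2 <;> rcases hs with rfl | rfl <;>
      simp_all
  have h1 : g (1 : ℤ).natAbs = 1 := by simpa using hg.one
  have heps := tail_eps hg le_rfl he h
  rw [h1] at heps
  obtain ⟨T, hT, t⟩ := tail_j hg le_rfl he h
  have hpos : ∀ n, N + 1 ≤ n → L g a n = 1 := fun n hn => by
    rw [← heps]; exact h n hn (F_one_ne a n)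
  have hneg : ∀ n, n ≤ a - T → L g a n = 1 := fun n hn => by
    have := (t (a - n) (by omega)).2
    rw [h1] at this
    have e : a - 1 * (a - n) = n := by ring
    rw [e] at this
    exact this
  have htail : ∀ n : ℤ, |N| + |a| + T + 2 ≤ |n| → L g a n = 1 := by
    intro n hn
    have h0 := abs_nonneg a
    have h1 := neg_abs_le a
    have h1' := le_abs_self a
    have h2 := abs_nonneg N
    have h3 := le_abs_self N
    rcases abs_choice n with h | h <;> rw [h] at hn
    · exact hpos n (by omega)
    · exact hneg n (by omega)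
  have hall : ∀ n, L g a n = 1 := by
    rcases le_or_gt (-1) a with ha | ha
    · exact descent hg ha htail
    · have ha' : -1 ≤ -a - 3 ∨ a = -2 := by omega
      have hrefl : ∀ n, L g (-a - 3) n = L g a (-1 - n) := fun n => (L_reflect a n).symm
      have hall' : ∀ n, L g (-a - 3) n = 1 := by
        apply descent hg (a := -a - 3) (by omega) (M := |N| + |a| + T + 3)
        intro n hn
        rw [hrefl]
        apply htail
        have : |n| ≤ |-1 - n| + 1 := by
          have := abs_add_le (-1 - n) 1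
          have e : |n| = |-1 - n + 1| := by rw [show -1 - n + 1 = -n by ring, abs_neg]
          rw [e]; simpa using this
        omega
      intro n
      have := hall' (-1 - n)
      rw [hrefl] at this
      have e : -1 - (-1 - n) = n := by ring
      rwa [e] at this
  obtain ⟨m, hm⟩ := hm
  have := hall m
  unfold L at this
  rw [hm] at this
  norm_num at this

end Pool.H12.Cubic
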