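import Pool.Agent.Lib_helper12.Cubic.Basic

/-!
# Pell families of solutions of the four term relation
-/

set_option autoImplicit false

namespace Pool.H12.Cubic

variable {g : ℕ → ℤ}

lemma IsCM.not_sq (hg : IsCM g) {l : ℤ} (hl : l ≠ 0) (h : g l.natAbs = -1) : ¬ IsSquare l := by
  rintro ⟨k, rfl⟩
  have hk : k ≠ 0 := by rintro rfl; simp at hl
  rw [hg.gmul hk hk, hg.sq hk] at h
  norm_num at h

lemma not_isSquare_mul_sq {l m : ℤ} (hm : m ≠ 0) (hl : ¬ IsSquare l) : ¬ IsSquare (l * m ^ 2) := by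
  rintro ⟨k, hk⟩
  apply hl
  have h1 : m ^ 2 ∣ k ^ 2 := ⟨l, by rw [pow_two k, ← hk]; ring⟩
  have h2 : m ∣ k := (Int.pow_dvd_pow_iff two_ne_zero).mp h1
  obtain ⟨c, rfl⟩ := h2
  refine ⟨c, ?_⟩
  have hm2 : m ^ 2 ≠ 0 := pow_ne_zero 2 hm
  have : m ^ 2 * l = m ^ 2 * (c * c) := by linear_combination hk
  exact mul_left_cancel₀ hm2 this

/-- Pell: for `l > 0` not a square and `m ≠ 0` there is `(X, Y)` with `X^2 = 1 + l m^2 Y^2`,
`X ≥ 1`, `Y ≥ 1`. -/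
lemma exists_pell {l m : ℤ} (hl0 : 0 < l) (hl : ¬ IsSquare l) (hm : m ≠ 0) :
    ∃ X Y : ℤ, 1 ≤ X ∧ 1 ≤ Y ∧ X ^ 2 = 1 + l * m ^ 2 * Y ^ 2 := by
  have hd : 0 < l * m ^ 2 := by positivity
  obtain ⟨x, y, hxy, hy⟩ := Pell.exists_of_not_isSquare hd (not_isSquare_mul_sq hm hl)
  have hx : x ≠ 0 := by
    rintro rfl
    have : 0 ≤ l * m ^ 2 * y ^ 2 := by positivity
    nlinarith
  refine ⟨|x|, |y|, Int.one_le_abs hx, Int.one_le_abs hy, ?_⟩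
  rw [sq_abs, sq_abs]; linarith

/-- The general Pell deformation of a base solution of the four term relation.
Base: `x1+x2 = S1`, `x3+x4 = S3`, `x3 x4 = l x1 x2 + c`; the deformed quadruple is
`(x1 + D1, x2 - D1, x3 + D3, x4 - D3)` with
`D1 = m (l m Y^2 (x1-x2) + X Y (x3-x4))`, `D3 = l m (m Y^2 (x3-x4) + X Y (x1-x2))`. -/
lemma pell_step (l m X Y x1 x2 x3 x4 c : ℤ) (hXY : X ^ 2 = 1 + l * m ^ 2 * Y ^ 2)
    (h : x3 * x4 = l * (x1 * x2) + c) :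
    (x3 + l * m * (m * Y ^ 2 * (x3 - x4) + X * Y * (x1 - x2))) *
      (x4 - l * m * (m * Y ^ 2 * (x3 - x4) + X * Y * (x1 - x2))) =
    l * ((x1 + m * (l * m * Y ^ 2 * (x1 - x2) + X * Y * (x3 - x4))) *
      (x2 - m * (l * m * Y ^ 2 * (x1 - x2) + X * Y * (x3 - x4)))) + c := by
  linear_combination h + (l * m ^ 2 * Y ^ 2 * ((x3 - x4) ^ 2 - l * (x1 - x2) ^ 2)) * hXY

end Pool.H12.Cubic
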