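import Pool.Agent.Lib_helper12.Cubic.More

/-!
# Sign changes in short (multiplicative) intervals
-/

set_option autoImplicit false

namespace Pool.H12.Cubic

variable {g : ℕ → ℤ}

/-- Iterating one Pell step: a state of prescribed size. -/
lemma iter_state {l x1 x2 x3 x4 c m X Y : ℤ} (hl : 1 ≤ l) (hm : 1 ≤ m) (hX : 1 ≤ X) (hY : 1 ≤ Y)
    (hXY : X ^ 2 = 1 + l * m ^ 2 * Y ^ 2) (hu : 0 ≤ x1 - x2) (hw : 0 ≤ x3 - x4)
    (huw : 1 ≤ (x1 - x2) + (x3 - x4)) (R : ℤ) :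
    ∀ k : ℕ, ∀ D1 D3 : ℤ, 0 ≤ D1 → 0 ≤ D3 → m ∣ D1 → m ∣ D3 →
      (x3 + D3) * (x4 - D3) = l * ((x1 + D1) * (x2 - D1)) + c →
      (x1 - x2) + (x3 - x4) + 2 * D1 + 2 * D3 ≤ R →
      R ≤ (x1 - x2) + (x3 - x4) + 2 * D1 + 2 * D3 + k →
      ∃ D1 D3 : ℤ, 0 ≤ D1 ∧ 0 ≤ D3 ∧ m ∣ D1 ∧ m ∣ D3 ∧
        (x3 + D3) * (x4 - D3) = l * ((x1 + D1) * (x2 - D1)) + c ∧
        R ≤ (x1 - x2) + (x3 - x4) + 2 * D1 + 2 * D3 ∧
        (x1 - x2) + (x3 - x4) + 2 * D1 + 2 * D3 ≤
          (1 + 2 * l * m ^ 2 * Y ^ 2 + 2 * l * m * X * Y) * R := by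
  intro k
  induction k with
  | zero =>
    intro D1 D3 h1 h2 h3 h4 h5 h6 h7
    have hR : (x1 - x2) + (x3 - x4) + 2 * D1 + 2 * D3 = R := by
      push_cast at h7; omega
    refine ⟨D1, D3, h1, h2, h3, h4, h5, hR.ge, ?_⟩
    rw [hR]
    have : 0 ≤ (2 * l * m ^ 2 * Y ^ 2 + 2 * l * m * X * Y) * R := by
      have : 0 ≤ R := by omega
      positivity
    linarith
  | succ k ih =>
    intro D1 D3 h1 h2 h3 h4 h5 h6 h7
    set a : ℤ := x1 - x2 + 2 * D1 with ha
    set b : ℤ := x3 - x4 + 2 * D3 with hb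
    have ha0 : 0 ≤ a := by omega
    have hb0 : 0 ≤ b := by omega
    have hab : 1 ≤ a + b := by omega
    have hstep := pell_step l m X Y (x1 + D1) (x2 - D1) (x3 + D3) (x4 - D3) c hXY h5
    have ea : (x1 + D1) - (x2 - D1) = a := by rw [ha]; ring
    have eb : (x3 + D3) - (x4 - D3) = b := by rw [hb]; ring
    rw [ea, eb] at hstep
    set E1 : ℤ := m * (l * m * Y ^ 2 * a + X * Y * b) with hE1
    set E3 : ℤ := l * m * (m * Y ^ 2 * b + X * Y * a) with hE3
    have hlmY : 1 ≤ l * m * Y ^ 2 := one_le_of_pos' (by positivity)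
    have hXY1 : 1 ≤ X * Y := one_le_of_pos' (by positivity)
    have hmY : 1 ≤ m * Y ^ 2 := one_le_of_pos' (by positivity)
    have hlm : 1 ≤ l * m := one_le_of_pos' (by positivity)
    have hE1' : a + b ≤ E1 := by
      have e1 : a ≤ l * m * Y ^ 2 * a := by nlinarith
      have e2 : b ≤ X * Y * b := by nlinarith
      rw [hE1]; nlinarith
    have hE3' : a + b ≤ E3 := by
      have e1 : b ≤ m * Y ^ 2 * b := by nlinarith
      have e2 : a ≤ X * Y * a := by nlinarith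
      rw [hE3]; nlinarith
    have hm1 : m ∣ D1 + E1 := dvd_add h3 (by rw [hE1]; exact Dvd.intro _ rfl)
    have hm3 : m ∣ D3 + E3 := dvd_add h4
      (by rw [hE3]; exact Dvd.dvd.mul_right (Dvd.dvd.mul_left (dvd_refl m) _) _)
    have hrel : (x3 + (D3 + E3)) * (x4 - (D3 + E3)) =
        l * ((x1 + (D1 + E1)) * (x2 - (D1 + E1))) + c := by
      rw [← add_assoc, ← add_assoc, ← sub_sub, ← sub_sub]; exact hstep
    by_cases hc : (x1 - x2) + (x3 - x4) + 2 * (D1 + E1) + 2 * (D3 + E3) ≤ R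
    · exact ih (D1 + E1) (D3 + E3) (by omega) (by omega) hm1 hm3 hrel hc
        (by push_cast at h7; omega)
    · refine ⟨D1 + E1, D3 + E3, by omega, by omega, hm1, hm3, hrel, by omega, ?_⟩
      have hS : (x1 - x2) + (x3 - x4) + 2 * (D1 + E1) + 2 * (D3 + E3) =
          a + b + 2 * E1 + 2 * E3 := by omega
      rw [hS]
      have hSR : a + b ≤ R := by omega
      have hbd : a + b + 2 * E1 + 2 * E3 ≤
          (1 + 2 * l * m ^ 2 * Y ^ 2 + 2 * l * m * X * Y) * (a + b) := by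
        have p1 : m ^ 2 * Y ^ 2 * b * l ≥ 0 := by positivity
        have e : (1 + 2 * l * m ^ 2 * Y ^ 2 + 2 * l * m * X * Y) * (a + b) -
            (a + b + 2 * E1 + 2 * E3) = 2 * (l - 1) * (m * X * Y * b) := by
          rw [hE1, hE3]; ring
        have p2 : 0 ≤ 2 * (l - 1) * (m * X * Y * b) := by
          have : 0 ≤ l - 1 := by omega
          positivity
        linarith
      refine hbd.trans ?_
      apply mul_le_mul_of_nonneg_left hSR
      positivity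

/-- The Pell family with size control. -/
lemma range_family {l x1 x2 x3 x4 c : ℤ} (hl0 : 0 < l) (hl : ¬ IsSquare l)
    (h : x3 * x4 = l * (x1 * x2) + c) (hu : 0 ≤ x1 - x2) (hw : 0 ≤ x3 - x4)
    (huw : 1 ≤ (x1 - x2) + (x3 - x4)) (m : ℤ) (hm : 1 ≤ m) :
    ∃ κ : ℤ, 1 ≤ κ ∧ ∀ R : ℤ, 1 ≤ R → ∃ D1 D3 : ℤ, R ≤ D1 ∧ R ≤ D3 ∧ D1 ≤ κ * R ∧ D3 ≤ κ * R ∧
      m ∣ D1 ∧ m ∣ D3 ∧ (x3 + D3) * (x4 - D3) = l * ((x1 + D1) * (x2 - D1)) + c := by
  obtain ⟨X, Y, hX, hY, hXY⟩ := exists_pell hl0 hl (by omega : m ≠ 0)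
  set κ₂ : ℤ := 1 + 2 * l * m ^ 2 * Y ^ 2 + 2 * l * m * X * Y with hκ
  have hκ1 : 1 ≤ κ₂ := by
    have : 0 ≤ 2 * l * m ^ 2 * Y ^ 2 + 2 * l * m * X * Y := by positivity
    linarith
  set S0 : ℤ := (x1 - x2) + (x3 - x4) with hS0
  refine ⟨κ₂ * κ₂ * (2 + S0), by nlinarith [mul_pos (by omega : 0 < κ₂) (by omega : 0 < κ₂)],
    fun R hR => ?_⟩
  obtain ⟨D1, D3, h1, h2, h3, h4, h5, h6, h7⟩ :=
    iter_state (c := c) (by omega : (1:ℤ) ≤ l) hm hX hY hXY hu hw huw (2 * R + S0)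
      (2 * R).toNat 0 0 le_rfl le_rfl (dvd_zero m) (dvd_zero m) (by simpa using h)
      (by omega) (by omega)
  rw [← hκ] at h7
  rw [← hS0] at h6 h7
  set a : ℤ := x1 - x2 + 2 * D1 with ha
  set b : ℤ := x3 - x4 + 2 * D3 with hb
  have ha0 : 0 ≤ a := by omega
  have hb0 : 0 ≤ b := by omega
  have hab : a + b = S0 + 2 * D1 + 2 * D3 := by omega
  have hstep := pell_step l m X Y (x1 + D1) (x2 - D1) (x3 + D3) (x4 - D3) c hXY h5
  have ea : (x1 + D1) - (x2 - D1) = a := by rw [ha]; ring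
  have eb : (x3 + D3) - (x4 - D3) = b := by rw [hb]; ring
  rw [ea, eb] at hstep
  set E1 : ℤ := m * (l * m * Y ^ 2 * a + X * Y * b) with hE1
  set E3 : ℤ := l * m * (m * Y ^ 2 * b + X * Y * a) with hE3
  have hlmY : 1 ≤ l * m * Y ^ 2 := one_le_of_pos' (by positivity)
  have hXY1 : 1 ≤ X * Y := one_le_of_pos' (by positivity)
  have hmY : 1 ≤ m * Y ^ 2 := one_le_of_pos' (by positivity)
  have hlm : 1 ≤ l * m := one_le_of_pos' (by positivity)
  have hE1' : a + b ≤ E1 := by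
    have e1 : a ≤ l * m * Y ^ 2 * a := by nlinarith
    have e2 : b ≤ X * Y * b := by nlinarith
    rw [hE1]; nlinarith
  have hE3' : a + b ≤ E3 := by
    have e1 : b ≤ m * Y ^ 2 * b := by nlinarith
    have e2 : a ≤ X * Y * a := by nlinarith
    rw [hE3]; nlinarith
  have hm1 : m ∣ D1 + E1 := dvd_add h3 (by rw [hE1]; exact Dvd.intro _ rfl)
  have hm3 : m ∣ D3 + E3 := dvd_add h4
    (by rw [hE3]; exact Dvd.dvd.mul_right (Dvd.dvd.mul_left (dvd_refl m) _) _)
  have hrel : (x3 + (D3 + E3)) * (x4 - (D3 + E3)) =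
      l * ((x1 + (D1 + E1)) * (x2 - (D1 + E1))) + c := by
    rw [← add_assoc, ← add_assoc, ← sub_sub, ← sub_sub]; exact hstep
  have hbd : a + b + 2 * E1 + 2 * E3 ≤ κ₂ * (a + b) := by
    have e : κ₂ * (a + b) - (a + b + 2 * E1 + 2 * E3) = 2 * (l - 1) * (m * X * Y * b) := by
      rw [hE1, hE3, hκ]; ring
    have p2 : 0 ≤ 2 * (l - 1) * (m * X * Y * b) := by
      have : 0 ≤ l - 1 := by omega
      positivity
    linarith
  have hR' : 2 * R + S0 ≤ (2 + S0) * R := by nlinarith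
  have hbd2 : a + b + 2 * E1 + 2 * E3 ≤ κ₂ * κ₂ * (2 + S0) * R := by
    calc a + b + 2 * E1 + 2 * E3 ≤ κ₂ * (a + b) := hbd
      _ ≤ κ₂ * (κ₂ * (2 * R + S0)) := by
          apply mul_le_mul_of_nonneg_left _ (by omega)
          rw [hab]; exact h7
      _ ≤ κ₂ * (κ₂ * ((2 + S0) * R)) := by
          apply mul_le_mul_of_nonneg_left _ (by omega)
          exact mul_le_mul_of_nonneg_left hR' (by omega)
      _ = κ₂ * κ₂ * (2 + S0) * R := by ring
  exact ⟨D1 + E1, D3 + E3, by omega, by omega, by omega, by omega, hm1, hm3, hrel⟩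

/-- Negative integers `n ≡ 0, j (mod v)` in terms of an interval of positive integers. -/
lemma tail_good (hg : IsCM g) {v j N M e : ℤ} (hv : 1 ≤ v) (hN : 0 ≤ N) (he : e = 1 ∨ e = -1)
    (h : ∀ n, N ≤ n → n ≤ M → F v j n ≠ 0 → g (F v j n).natAbs = e) {n : ℤ}
    (hn : v ∣ n ∨ v ∣ n - j)
    (h1 : v * (2 * |j| + 2 * v + N + K v j + 4) + |j| ≤ -n) (h2 : 32 * v * n ^ 2 ≤ M) :
    F v j n ≠ 0 ∧ g (F v j n).natAbs = g v.natAbs := by
  have hK := K_nonneg v j
  have j0 := abs_nonneg j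
  have j1 := le_abs_self j
  have j2 := neg_abs_le j
  set T : ℤ := |j| + 2 * v + (N + K v j + 1) + 3 with hT
  have hvT : v * (2 * |j| + 2 * v + N + K v j + 4) = v * T + v * |j| := by rw [hT]; ring
  have hTn : T ≤ v * T := by nlinarith
  have hvj : |j| ≤ v * |j| := by nlinarith
  have hnneg : n < 0 := by nlinarith
  -- common bounds for `y`
  have key : ∀ y : ℤ, T ≤ y → y ≤ -2 * n → 8 * v * y ^ 2 ≤ M := by
    intro y hy1 hy2
    have : y ^ 2 ≤ (-2 * n) ^ 2 := pow_le_pow_left₀ (by omega) hy2 2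
    have : 8 * v * y ^ 2 ≤ 8 * v * (-2 * n) ^ 2 := mul_le_mul_of_nonneg_left this (by positivity)
    have e : 8 * v * (-2 * n) ^ 2 = 32 * v * n ^ 2 := by ring
    linarith
  rcases hn with ⟨y', hy'⟩ | ⟨y', hy'⟩
  · -- `n = v y' = -(v y)`
    obtain ⟨y, rfl⟩ : ∃ y, y' = -y := ⟨-y', by ring⟩
    have hny : n = -(v * y) := by rw [hy']; ring
    have hTy : T ≤ y := by
      have : v * T ≤ v * y := by omega
      exact le_of_mul_le_mul_left this (by omega)
    have hy0 : 0 ≤ y := by omega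
    have hyn : y ≤ -n := by nlinarith
    have hM := key y hTy (by omega)
    have hyy : y ≤ y ^ 2 := by nlinarith
    have hvyy : v * y ≤ v * y ^ 2 := by nlinarith
    rw [hny]
    have hvy : y ≤ v * y := by nlinarith
    have f3 : F v j (-(v * y)) ≠ 0 := F_ne_zero (lt_of_lt_of_le (by omega) (neg_le_abs _))
    refine ⟨f3, ?_⟩
    have hA := @A_large' v j (y + 1) (N + K v j + 1) hv
      (by rw [abs_of_nonneg (by omega : (0:ℤ) ≤ N + K v j + 1)]; omega)
    have f1 : F v j ((j + v * (y + 1)) * ((y + 1) - 1) - 2 * v) ≠ 0 :=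
      F_ne_zero (lt_of_lt_of_le (by omega) (le_abs_self _))
    have hvy1 : v * (y + 1) = v * y + v := by ring
    have f2 : F v j (j + v * (y + 1)) ≠ 0 :=
      F_ne_zero (lt_of_lt_of_le (by omega) (le_abs_self _))
    have u2 : j + v * (y + 1) ≤ M := by nlinarith
    have u1 : (j + v * (y + 1)) * ((y + 1) - 1) - 2 * v ≤ M := by nlinarith
    have hid := id_A1 v j (y + 1)
    have e1 : v - v * (y + 1) = -(v * y) := by ring
    rw [e1] at hid
    have := hg.three (by omega : v ≠ 0) f1 f2 f3 hid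
    rw [h _ (by omega) u1 f1, h _ (by omega) u2 f2] at this
    rcases he with rfl | rfl <;> linarith
  · -- `n = j + v y' = j - v y`
    obtain ⟨y, rfl⟩ : ∃ y, y' = -y := ⟨-y', by ring⟩
    have hny : n = j - v * y := by linarith
    have hTy : T ≤ y := by
      have : v * T ≤ v * y := by omega
      exact le_of_mul_le_mul_left this (by omega)
    have hy0 : 0 ≤ y := by omega
    have hyn : y ≤ -2 * n := by nlinarith
    have hM := key y hTy hyn
    have hyy : y ≤ y ^ 2 := by nlinarith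
    have hvyy : v * y ≤ v * y ^ 2 := by nlinarith
    rw [hny]
    have hvy : y ≤ v * y := by nlinarith
    have f3 : F v j (j - v * y) ≠ 0 := F_ne_zero (lt_of_lt_of_le (by omega) (neg_le_abs _))
    refine ⟨f3, ?_⟩
    have hA := @A_large v j (y + 1) (N + K v j + 1) hv
      (by rw [abs_of_nonneg (by omega : (0:ℤ) ≤ N + K v j + 1)]; omega)
    have f1 : F v j (v * (y + 1) ^ 2 - (j + v) * (y + 1) - 2 * v) ≠ 0 :=
      F_ne_zero (lt_of_lt_of_le (by omega) (le_abs_self _))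
    have hvy1 : y + 1 ≤ v * (y + 1) := by nlinarith
    have f2 : F v j (v * (y + 1)) ≠ 0 := F_ne_zero (lt_of_lt_of_le (by omega) (le_abs_self _))
    have u2 : v * (y + 1) ≤ M := by nlinarith
    have u1 : v * (y + 1) ^ 2 - (j + v) * (y + 1) - 2 * v ≤ M := by nlinarith
    have hid := id_A0 v j (y + 1)
    have e1 : j + v - v * (y + 1) = j - v * y := by ring
    rw [e1] at hid
    have := hg.three (by omega : v ≠ 0) f1 f2 f3 hid
    rw [h _ (by omega) u1 f1, h _ (by omega) u2 f2] at this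
    rcases he with rfl | rfl <;> linarith

end Pool.H12.Cubic
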