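import Pool.Agent.Lib_helper12.Cubic.Pell

/-!
# Sign changes of completely multiplicative functions along the cubics `F v j`
-/

set_option autoImplicit false

namespace Pool.H12.Cubic

variable {g : ℕ → ℤ}

lemma one_le_of_pos' {z : ℤ} (h : 0 < z) : 1 ≤ z := h

/-- The Pell family attached to a base solution with `x1 ≥ x2`, `x3 ≥ x4`, not both equalities. -/
lemma family {l x1 x2 x3 x4 c : ℤ} (hl0 : 0 < l) (hl : ¬ IsSquare l)
    (h : x3 * x4 = l * (x1 * x2) + c) (hu : 0 ≤ x1 - x2) (hw : 0 ≤ x3 - x4)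
    (huw : 1 ≤ (x1 - x2) + (x3 - x4)) (M : ℤ) (hM : 1 ≤ M) (N : ℤ) :
    ∃ D1 D3 : ℤ, N ≤ D1 ∧ N ≤ D3 ∧ M ∣ D1 ∧ M ∣ D3 ∧
      (x3 + D3) * (x4 - D3) = l * ((x1 + D1) * (x2 - D1)) + c := by
  set m : ℤ := M * (|N| + 1) with hm
  have hN : N ≤ |N| := le_abs_self N
  have hN0 : 0 ≤ |N| := abs_nonneg N
  have hm1 : |N| + 1 ≤ m := by rw [hm]; nlinarith
  have hm0 : m ≠ 0 := by omega
  obtain ⟨X, Y, hX, hY, hXY⟩ := exists_pell hl0 hl hm0
  have hmpos : 0 < m := by omega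
  refine ⟨m * (l * m * Y ^ 2 * (x1 - x2) + X * Y * (x3 - x4)),
    l * m * (m * Y ^ 2 * (x3 - x4) + X * Y * (x1 - x2)), ?_, ?_, ?_, ?_,
    pell_step l m X Y x1 x2 x3 x4 c hXY h⟩
  · have e1 : (x1 - x2) ≤ l * m * Y ^ 2 * (x1 - x2) := by
      have : 1 ≤ l * m * Y ^ 2 := one_le_of_pos' (by positivity)
      nlinarith
    have e2 : (x3 - x4) ≤ X * Y * (x3 - x4) := by
      have : 1 ≤ X * Y := one_le_of_pos' (by positivity)
      nlinarith
    nlinarith
  · have e1 : (x3 - x4) ≤ m * Y ^ 2 * (x3 - x4) := by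
      have : 1 ≤ m * Y ^ 2 := one_le_of_pos' (by positivity)
      nlinarith
    have e2 : (x1 - x2) ≤ X * Y * (x1 - x2) := by
      have : 1 ≤ X * Y := one_le_of_pos' (by positivity)
      nlinarith
    have e3 : m ≤ l * m := by nlinarith
    have e4 : 1 ≤ m * Y ^ 2 * (x3 - x4) + X * Y * (x1 - x2) := by omega
    nlinarith
  · exact Dvd.dvd.mul_right (Dvd.intro _ rfl) _
  · exact Dvd.dvd.mul_right (Dvd.dvd.mul_left (Dvd.intro _ rfl) _) _

/-- **Two-sided statement, quadruple form.** -/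
lemma quadruple (hg : IsCM g) {l r : ℤ} (j : ℤ) (hl : 0 < l) (hr : 0 < r)
    (hgl : g l.natAbs = -1) (N : ℤ) :
    ∃ x1 x2 x3 x4 : ℤ, N < |x1| ∧ N < |x2| ∧ N < |x3| ∧ N < |x4| ∧
      F (l * r) j x1 ≠ 0 ∧ F (l * r) j x2 ≠ 0 ∧ F (l * r) j x3 ≠ 0 ∧ F (l * r) j x4 ≠ 0 ∧
      -(g (F (l * r) j x1).natAbs * g (F (l * r) j x2).natAbs) =
        g (F (l * r) j x3).natAbs * g (F (l * r) j x4).natAbs := by
  have hsq : ¬ IsSquare l := hg.not_sq hl.ne' hgl
  -- a base solution with `x1 ≥ x2`, `x3 ≥ x4`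
  obtain ⟨a, b, c, d, hab, hcd, hrel, hu, hw, huw⟩ :
      ∃ a b c d : ℤ, a + b = j + l * r + r ∧ c + d = j - l * (l * r) ∧
        c * d = l * (a * b) + (2 * (l - 1) * (l * r) ^ 2 - j * (l * r)) ∧ 0 ≤ a - b ∧ 0 ≤ c - d ∧
        1 ≤ (a - b) + (c - d) := by
    have key : ∀ a b c d : ℤ, a + b = j + l * r + r → c + d = j - l * (l * r) →
        c * d = l * (a * b) + (2 * (l - 1) * (l * r) ^ 2 - j * (l * r)) →
        (a ≠ b ∨ c ≠ d) → ∃ a b c d : ℤ, a + b = j + l * r + r ∧ c + d = j - l * (l * r) ∧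
        c * d = l * (a * b) + (2 * (l - 1) * (l * r) ^ 2 - j * (l * r)) ∧ 0 ≤ a - b ∧ 0 ≤ c - d ∧
        1 ≤ (a - b) + (c - d) := by
      intro a b c d h1 h2 h3 h4
      rcases le_total b a with hba | hba <;> rcases le_total d c with hdc | hdc
      · exact ⟨a, b, c, d, h1, h2, h3, by omega, by omega, by omega⟩
      · exact ⟨a, b, d, c, h1, by omega, by linarith, by omega, by omega, by omega⟩
      · exact ⟨b, a, c, d, by omega, h2, by linarith, by omega, by omega, by omega⟩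
      · exact ⟨b, a, d, c, by omega, by omega, by linarith, by omega, by omega, by omega⟩
    refine key (j + 2 * (l * r)) (r - l * r) j (-(l * (l * r))) (by ring) (by ring) (by ring) ?_
    by_contra hcon
    push Not at hcon
    obtain ⟨h1, h2⟩ := hcon
    -- j + 3 l r - r = 0 and j + l^2 r = 0
    have h3 : (l ^ 2 - 3 * l + 1) * r = 0 := by rw [h2] at h1; linarith
    have h4 : l ^ 2 - 3 * l + 1 = 0 := by
      rcases mul_eq_zero.mp h3 with h | h
      · exact h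
      · omega
    have h5 : l ≤ 3 := by nlinarith
    interval_cases l <;> omega
  obtain ⟨D1, D3, hD1, hD3, -, -, hrel'⟩ := family hl hsq hrel hu hw huw 1 le_rfl
    (|N| + K (l * r) j + |a| + |b| + |c| + |d| + 1)
  have hK := K_nonneg (l * r) j
  have hN : N ≤ |N| := le_abs_self N
  have hN0 := abs_nonneg N
  have ha := abs_nonneg a
  have hb := abs_nonneg b
  have hc := abs_nonneg c
  have hd := abs_nonneg d
  have ha1 := neg_abs_le a
  have hb1 := le_abs_self b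
  have hc1 := neg_abs_le c
  have hd1 := le_abs_self d
  have q1 : |N| + K (l * r) j < |a + D1| := lt_of_lt_of_le (by omega) (le_abs_self _)
  have q2 : |N| + K (l * r) j < |b - D1| := lt_of_lt_of_le (by omega) (neg_le_abs _)
  have q3 : |N| + K (l * r) j < |c + D3| := lt_of_lt_of_le (by omega) (le_abs_self _)
  have q4 : |N| + K (l * r) j < |d - D3| := lt_of_lt_of_le (by omega) (neg_le_abs _)
  have f1 : F (l * r) j (a + D1) ≠ 0 := F_ne_zero (by omega)
  have f2 : F (l * r) j (b - D1) ≠ 0 := F_ne_zero (by omega)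
  have f3 : F (l * r) j (c + D3) ≠ 0 := F_ne_zero (by omega)
  have f4 : F (l * r) j (d - D3) ≠ 0 := F_ne_zero (by omega)
  refine ⟨a + D1, b - D1, c + D3, d - D3, by omega, by omega, by omega, by omega,
    f1, f2, f3, f4, ?_⟩
  have h4 := four_term l r j (a + D1) (b - D1) (c + D3) (d - D3) (by omega) (by omega)
    (by linarith)
  have h5 := hg.four hl.ne' f1 f2 f3 f4 h4
  rw [hgl] at h5
  linarith

/-- **Two-sided theorem.** -/
theorem two_sided (hg : IsCM g) {l r : ℤ} (j : ℤ) (hl : 0 < l) (hr : 0 < r)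
    (hgl : g l.natAbs = -1) {s : ℤ} (hs : s = 1 ∨ s = -1) (N : ℤ) :
    ∃ n : ℤ, N < |n| ∧ F (l * r) j n ≠ 0 ∧ g (F (l * r) j n).natAbs = s := by
  obtain ⟨x1, x2, x3, x4, q1, q2, q3, q4, f1, f2, f3, f4, h⟩ := quadruple hg j hl hr hgl N
  by_contra hcon
  push Not at hcon
  have t : ∀ x : ℤ, N < |x| → F (l * r) j x ≠ 0 → g (F (l * r) j x).natAbs = -s := by
    intro x hx hfx
    have h1 := hcon x hx hfx
    rcases hg.sign _ (Int.natAbs_ne_zero.mpr hfx) with h2 | h2 <;> rcases hs with rfl | rfl <;>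
      simp_all
  rw [t x1 q1 f1, t x2 q2 f2, t x3 q3 f3, t x4 q4 f4] at h
  rcases hs with rfl | rfl <;> norm_num at h

/-! ### Tails -/

lemma A_large {v j y T : ℤ} (hv : 1 ≤ v) (hy : |j| + 2 * v + |T| + 3 ≤ y) :
    T ≤ v * y ^ 2 - (j + v) * y - 2 * v := by
  have h0 := abs_nonneg j
  have h1 := le_abs_self j
  have h2 := abs_nonneg T
  have h3 := le_abs_self T
  have e1 : v * y ^ 2 - (j + v) * y - 2 * v = y * (v * (y - 1) - j) - 2 * v := by ring
  have e2 : 2 * v + |T| + 2 ≤ v * (y - 1) - j := by nlinarith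
  rw [e1]; nlinarith

lemma A_large' {v j y T : ℤ} (hv : 1 ≤ v) (hy : |j| + 2 * v + |T| + 3 ≤ y) :
    T ≤ (j + v * y) * (y - 1) - 2 * v := by
  have h0 := abs_nonneg j
  have h1 := neg_abs_le j
  have h2 := abs_nonneg T
  have h3 := le_abs_self T
  have e2 : 2 * v + |T| + 2 ≤ j + v * y := by nlinarith
  nlinarith

lemma tail_j (hg : IsCM g) {v j N e : ℤ} (hv : 1 ≤ v) (he : e = 1 ∨ e = -1)
    (h : ∀ n, N ≤ n → F v j n ≠ 0 → g (F v j n).natAbs = e) :
    ∃ T : ℤ, 0 ≤ T ∧ ∀ y, T ≤ y → F v j (j - v * y) ≠ 0 ∧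
      g (F v j (j - v * y)).natAbs = g v.natAbs := by
  have hK := K_nonneg v j
  have h0 := abs_nonneg j
  have h1 := le_abs_self j
  have h2 := abs_nonneg N
  have h3 := le_abs_self N
  refine ⟨|j| + 2 * v + (|N| + K v j + 1) + 3, by omega, fun y hy => ?_⟩
  have hvy : y ≤ v * y := by nlinarith
  have f3 : F v j (j - v * y) ≠ 0 := F_ne_zero (lt_of_lt_of_le (by omega) (neg_le_abs _))
  refine ⟨f3, ?_⟩
  have hA := @A_large v j (y + 1) (|N| + K v j + 1) hv
    (by rw [abs_of_nonneg (by omega : (0:ℤ) ≤ |N| + K v j + 1)]; omega)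
  have f1 : F v j (v * (y + 1) ^ 2 - (j + v) * (y + 1) - 2 * v) ≠ 0 :=
    F_ne_zero (lt_of_lt_of_le (by omega) (le_abs_self _))
  have hvy1 : y + 1 ≤ v * (y + 1) := by nlinarith
  have f2 : F v j (v * (y + 1)) ≠ 0 := F_ne_zero (lt_of_lt_of_le (by omega) (le_abs_self _))
  have hid := id_A0 v j (y + 1)
  have e1 : j + v - v * (y + 1) = j - v * y := by ring
  rw [e1] at hid
  have := hg.three (by omega : v ≠ 0) f1 f2 f3 hid
  rw [h _ (by omega) f1, h _ (by omega) f2] at this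
  rcases he with rfl | rfl <;> linarith

lemma tail_0 (hg : IsCM g) {v j N e : ℤ} (hv : 1 ≤ v) (he : e = 1 ∨ e = -1)
    (h : ∀ n, N ≤ n → F v j n ≠ 0 → g (F v j n).natAbs = e) :
    ∃ T : ℤ, 0 ≤ T ∧ ∀ y, T ≤ y → F v j (-(v * y)) ≠ 0 ∧
      g (F v j (-(v * y))).natAbs = g v.natAbs := by
  have hK := K_nonneg v j
  have h0 := abs_nonneg j
  have h1 := le_abs_self j
  have h1' := neg_abs_le j
  have h2 := abs_nonneg N
  have h3 := le_abs_self N
  refine ⟨|j| + 2 * v + (|N| + K v j + 1) + 3, by omega, fun y hy => ?_⟩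
  have hvy : y ≤ v * y := by nlinarith
  have f3 : F v j (-(v * y)) ≠ 0 := F_ne_zero (lt_of_lt_of_le (by omega) (neg_le_abs _))
  refine ⟨f3, ?_⟩
  have hA := @A_large' v j (y + 1) (|N| + K v j + 1) hv
    (by rw [abs_of_nonneg (by omega : (0:ℤ) ≤ |N| + K v j + 1)]; omega)
  have f1 : F v j ((j + v * (y + 1)) * ((y + 1) - 1) - 2 * v) ≠ 0 :=
    F_ne_zero (lt_of_lt_of_le (by omega) (le_abs_self _))
  have hvy1 : v * (y + 1) = v * y + v := by ring
  have f2 : F v j (j + v * (y + 1)) ≠ 0 :=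
    F_ne_zero (lt_of_lt_of_le (by omega) (le_abs_self _))
  have hid := id_A1 v j (y + 1)
  have e1 : v - v * (y + 1) = -(v * y) := by ring
  rw [e1] at hid
  have := hg.three (by omega : v ≠ 0) f1 f2 f3 hid
  rw [h _ (by omega) f1, h _ (by omega) f2] at this
  rcases he with rfl | rfl <;> linarith

lemma tail_eps (hg : IsCM g) {v j N e : ℤ} (hv : 1 ≤ v) (he : e = 1 ∨ e = -1)
    (h : ∀ n, N ≤ n → F v j n ≠ 0 → g (F v j n).natAbs = e) : e = g v.natAbs := by
  obtain ⟨T1, hT1, t1⟩ := tail_j hg hv he h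
  obtain ⟨T0, hT0, t0⟩ := tail_0 hg hv he h
  have hK := K_nonneg v j
  have h0 := abs_nonneg j
  have h1 := le_abs_self j
  have h2 := abs_nonneg N
  have h3 := le_abs_self N
  set z : ℤ := |j| + T1 + T0 + |N| + K v j + 10 with hz
  have hvz : z ≤ v * z := by nlinarith
  -- x = v y, y = v z - 1
  have hid := id_B0 v j (v * z - 1)
  have e1 : -v * (v * z - 1) ^ 2 + j * (v * z - 1) + j + 2 * v =
      -(v * ((v * z - 1) ^ 2 - j * z - 2)) := by ring
  rw [e1] at hid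
  have ht : T0 ≤ (v * z - 1) ^ 2 - j * z - 2 := by
    have a1 : (z - 1) ^ 2 ≤ (v * z - 1) ^ 2 := by
      apply pow_le_pow_left₀ <;> omega
    have a2 : j * z ≤ |j| * z := by nlinarith
    have a3 : (z - 1) ^ 2 - |j| * z - 2 = z * (z - 2 - |j|) - 1 := by ring
    have a4 : T0 + 8 ≤ z - 2 - |j| := by omega
    nlinarith
  obtain ⟨g1, g2⟩ := t0 _ ht
  obtain ⟨g3, g4⟩ := t1 (v * z - 1) (by omega)
  have hvy : v * z - 1 ≤ v * (v * z - 1) := by nlinarith
  have f2 : F v j (v * (v * z - 1)) ≠ 0 :=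
    F_ne_zero (lt_of_lt_of_le (by omega) (le_abs_self _))
  have := hg.three' (by omega : v ≠ 0) g1 f2 g3 hid
  rw [g2, g4, h _ (by omega) f2] at this
  rcases hg.sign v.natAbs (Int.natAbs_ne_zero.mpr (by omega)) with h5 | h5 <;>
    rw [h5] at this ⊢ <;> linarith

/-- **One-sided theorem for even `v`.** -/
theorem one_sided_even (hg : IsCM g) (hg2 : g 2 = -1) {r : ℤ} (j : ℤ) (hr : 0 < r) {s : ℤ}
    (hs : s = 1 ∨ s = -1) (N : ℤ) :
    ∃ n : ℤ, N < n ∧ F (2 * r) j n ≠ 0 ∧ g (F (2 * r) j n).natAbs = s := by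
  by_contra hcon
  push Not at hcon
  set v : ℤ := 2 * r with hv
  have hv1 : 1 ≤ v := by omega
  have he : (-s = 1) ∨ (-s = -1) := by omega
  have h : ∀ n, N + 1 ≤ n → F v j n ≠ 0 → g (F v j n).natAbs = -s := by
    intro x hx hfx
    have h1 := hcon x (by omega) hfx
    rcases hg.sign _ (Int.natAbs_ne_zero.mpr hfx) with h2 | h2 <;> rcases hs with rfl | rfl <;>
      simp_all
  have heps := tail_eps hg hv1 he h
  obtain ⟨T1, hT1, t1⟩ := tail_j hg hv1 he h
  obtain ⟨T0, hT0, t0⟩ := tail_0 hg hv1 he h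
  have hgl : g (2 : ℤ).natAbs = -1 := by simpa using hg2
  have hsq : ¬ IsSquare (2 : ℤ) := hg.not_sq two_ne_zero hgl
  have hK := K_nonneg v j
  have h0 := abs_nonneg j
  have h1 := le_abs_self j
  have h1' := neg_abs_le j
  have h2 := abs_nonneg N
  have h3 := le_abs_self N
  have hGv := hg.sq (by omega : v ≠ 0)
  -- common end of the proof
  have fin : ∀ x1 x2 x3 x4 : ℤ, x1 + x2 = j + v + r → x3 + x4 = j - 2 * v →
      x3 * x4 = 2 * (x1 * x2) + (2 * (2 - 1) * v ^ 2 - j * v) →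
      |N| + K v j + 1 < x1 → |N| + K v j + 1 < x3 →
      (F v j x2 ≠ 0 ∧ g (F v j x2).natAbs = g v.natAbs) →
      (F v j x4 ≠ 0 ∧ g (F v j x4).natAbs = g v.natAbs) → False := by
    intro x1 x2 x3 x4 k1 k2 k3 k4 k5 k6 k7
    have f1 : F v j x1 ≠ 0 := F_ne_zero (lt_of_lt_of_le (by omega) (le_abs_self _))
    have f3 : F v j x3 ≠ 0 := F_ne_zero (lt_of_lt_of_le (by omega) (le_abs_self _))
    have h4 := four_term 2 r j x1 x2 x3 x4 (by omega) (by omega) (by rw [k3]; ring)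
    have h5 := hg.four two_ne_zero f1 k6.1 f3 k7.1 h4
    rw [hgl, k6.2, k7.2, h x1 (by omega) f1, h x3 (by omega) f3, heps, hGv] at h5
    norm_num at h5
  rcases le_or_gt (-(6 * r)) j with hj | hj
  · -- base (j+5r, -2r; j+2r, -6r)
    have hbase : (j + 2 * r) * (-(6 * r)) =
        2 * ((j + 5 * r) * (-(2 * r))) + (2 * (2 - 1) * v ^ 2 - j * v) := by rw [hv]; ring
    obtain ⟨D1, D3, hD1, hD3, ⟨d1, hd1⟩, ⟨d3, hd3⟩, hrel⟩ := family two_pos hsq hbase
      (by omega) (by omega) (by omega) v hv1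
      (|N| + K v j + 2 + |j| + v * T0 + 6 * r)
    refine fin (j + 5 * r + D1) (-(2 * r) - D1) (j + 2 * r + D3) (-(6 * r) - D3)
      (by omega) (by omega) hrel ?_ ?_ ?_ ?_
    · have : 0 ≤ v * T0 := by positivity
      omega
    · have : 0 ≤ v * T0 := by positivity
      omega
    · have e : -(2 * r) - D1 = -(v * (1 + d1)) := by rw [hd1, hv]; ring
      rw [e]
      apply t0
      have : v * T0 ≤ v * d1 := by rw [← hd1]; omega
      have := le_of_mul_le_mul_left this (by omega)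
      omega
    · have e : -(6 * r) - D3 = -(v * (3 + d3)) := by rw [hd3, hv]; ring
      rw [e]
      apply t0
      have : v * T0 ≤ v * d3 := by rw [← hd3]; omega
      have := le_of_mul_le_mul_left this (by omega)
      omega
  · -- base (-r, j+4r; -4r, j)
    have hbase : (-(4 * r)) * j =
        2 * ((-r) * (j + 4 * r)) + (2 * (2 - 1) * v ^ 2 - j * v) := by rw [hv]; ring
    obtain ⟨D1, D3, hD1, hD3, ⟨d1, hd1⟩, ⟨d3, hd3⟩, hrel⟩ := family two_pos hsq hbase
      (by omega) (by omega) (by omega) v hv1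
      (|N| + K v j + 2 + |j| + v * (T1 + 2) + 6 * r)
    have hT1v : 0 ≤ v * (T1 + 2) := by positivity
    refine fin (-r + D1) (j + 4 * r - D1) (-(4 * r) + D3) (j - D3)
      (by omega) (by omega) hrel ?_ ?_ ?_ ?_
    · omega
    · omega
    · have e : j + 4 * r - D1 = j - v * (d1 - 2) := by rw [hd1, hv]; ring
      rw [e]
      apply t1
      have : v * (T1 + 2) ≤ v * d1 := by rw [← hd1]; omega
      have := le_of_mul_le_mul_left this (by omega)
      omega
    · have e : j - D3 = j - v * d3 := by rw [hd3]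
      rw [e]
      apply t1
      have : v * (T1 + 2) ≤ v * d3 := by rw [← hd3]; omega
      have := le_of_mul_le_mul_left this (by omega)
      omega

end Pool.H12.Cubic
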